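import Pool.Agent.Q216.TI.Three
import Pool.Agent.TH138.NF.End

/-!
# The stepping-down arguments
-/

set_option autoImplicit false

namespace Pool.Agent.Q216.TI

open Finset

/-- Every two-colouring of the `r`-subsets of `{0, …, N - 1}` has a homogeneous set of size `n`. -/
def Ram (N r n : ℕ) : Prop :=
  ∀ c : Finset ℕ → Bool, ∃ H ⊆ range N, H.card = n ∧ ∃ b, ∀ e ⊆ H, e.card = r → c e = b

theorem ram_mono {N N' r n : ℕ} (h : Ram N r n) (hN : N ≤ N') : Ram N' r n := by
  intro c
  obtain ⟨H, hH, h1⟩ := h c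
  exact ⟨H, hH.trans (range_subset_range.2 hN), h1⟩

theorem ram_mono' {N r n n' : ℕ} (h : Ram N r n) (hn : n' ≤ n) : Ram N r n' := by
  intro c
  obtain ⟨H, hH, hc, b, hb⟩ := h c
  obtain ⟨H', hH', hc'⟩ := exists_subset_card_eq (hc ▸ hn : n' ≤ H.card)
  exact ⟨H', hH'.trans hH, hc', b, fun e he => hb e (he.trans hH')⟩

/-- The step of Erdős and Rado. -/
theorem er_step {M s k N : ℕ} (h : Ram M (s + 1) k)
    (hN : (2 * 2 ^ ((s + 1) * M ^ s)) ^ M ≤ N) : Ram N (s + 2) k := by
  classical
  intro c
  let L : (Fin (s + 2) → ℕ) → Bool := fun x => c (univ.image x)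
  obtain ⟨v, W, -, hW, hvV, hvm, hvW, -, h2⟩ := Pool.Agent.TH138.NF.end_hom L (range N) M
    (2 * 2 ^ ((s + 1) * M ^ s)) (by simp) (by simpa using hN) M le_rfl
  have hWne : W.Nonempty := by
    apply card_pos.1
    simpa using hW
  obtain ⟨w0, hw0⟩ := hWne
  obtain ⟨H, hH, hHc, b, hb⟩ := h (fun I => c (insert w0 (I.image v)))
  have hinj : Set.InjOn v (H : Set ℕ) := by
    intro i hi j hj hij
    have hi' := mem_range.1 (hH hi)
    have hj' := mem_range.1 (hH hj)
    rcases lt_trichotomy i j with h | h | h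
    · exact absurd hij (hvm i j h hj').ne
    · exact h
    · exact absurd hij (hvm j i h hi').ne'
  refine ⟨H.image v, ?_, by rw [card_image_of_injOn hinj, hHc], b, ?_⟩
  · intro x hx
    obtain ⟨i, hi, rfl⟩ := mem_image.1 hx
    exact hvV i (mem_range.1 (hH hi))
  intro e he hec
  obtain ⟨J, hJH, rfl⟩ := subset_image_iff.1 he
  have hJc : J.card = s + 2 := by
    rw [card_image_of_injOn (hinj.mono (by exact_mod_cast hJH))] at hec
    exact hec
  have hJne : J.Nonempty := card_pos.1 (by omega)
  set j := J.max' hJne with hj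
  have hjJ : j ∈ J := J.max'_mem hJne
  have hJ0c : (J.erase j).card = s + 1 := by rw [card_erase_of_mem hjJ]; omega
  have hJ0lt : ∀ i ∈ J.erase j, i < j := fun i hi =>
    lt_of_le_of_ne (J.le_max' i (mem_of_mem_erase hi)) (ne_of_mem_erase hi)
  let i : Fin (s + 1) → ℕ := (J.erase j).orderEmbOfFin hJ0c
  have hi : ∀ a, i a ∈ J.erase j := fun a => orderEmbOfFin_mem _ _ a
  have himg : univ.image i = J.erase j := by
    ext x
    simp only [mem_image, mem_univ, true_and]
    constructor
    · rintro ⟨a, rfl⟩; exact hi a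
    · intro hx
      have : x ∈ Set.range ((J.erase j).orderEmbOfFin hJ0c) := by
        rw [range_orderEmbOfFin]; exact hx
      obtain ⟨a, ha⟩ := this
      exact ⟨a, ha⟩
  have hsn : ∀ w : ℕ, univ.image (Fin.snoc (fun a => v (i a)) w : Fin (s + 2) → ℕ) =
      insert w ((J.erase j).image v) := by
    intro w
    ext x
    simp only [mem_image, mem_univ, true_and, mem_insert]
    constructor
    · rintro ⟨a, rfl⟩
      refine Fin.lastCases ?_ (fun a => ?_) a
      · left; simp
      · right
        exact ⟨i a, hi a, by simp⟩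
    · rintro (rfl | ⟨a, ha, rfl⟩)
      · exact ⟨Fin.last _, by simp⟩
      · rw [← himg] at ha
        obtain ⟨a', -, rfl⟩ := mem_image.1 ha
        exact ⟨Fin.castSucc a', by simp⟩
  have h3 := h2 i j (mem_range.1 (hH (hJH hjJ))) (fun a => hJ0lt _ (hi a)) w0 hw0
  change c (univ.image _) = c (univ.image _) at h3
  rw [hsn, hsn, ← image_insert, insert_erase hjJ] at h3
  rw [h3]
  exact hb (J.erase j) ((erase_subset _ _).trans hJH) hJ0c

/-- the points `0, 1, 4, 13, …` of the comb -/
def rep (i : ℕ) : ℤ := ∑ j ∈ range i, 3 ^ j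

theorem rep_succ (i : ℕ) : rep (i + 1) = rep i + 3 ^ i := by
  unfold rep; rw [sum_range_succ]

theorem two_rep (i : ℕ) : 2 * rep i = 3 ^ i - 1 := by
  induction i with
  | zero => simp [rep]
  | succ i ih => rw [rep_succ, mul_add, ih, pow_succ]; ring

theorem rep_diff (i t : ℕ) : ∃ w : ℤ, rep (i + 1 + t) - rep i = 3 ^ i * (1 + 3 * w) := by
  induction t with
  | zero => exact ⟨0, by rw [add_zero, rep_succ]; ring⟩
  | succ t ih =>
    obtain ⟨w, hw⟩ := ih
    refine ⟨w + 3 ^ t, ?_⟩
    rw [← add_assoc, rep_succ]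
    have : rep (i + 1 + t) + 3 ^ (i + 1 + t) - rep i = (rep (i + 1 + t) - rep i) + 3 ^ (i + 1 + t) := by
      ring
    rw [this, hw, pow_add, pow_succ]
    ring

theorem rep_mem (n i : ℕ) (h : i ≤ n) : rep i ∈ Ico (0 : ℤ) (3 ^ n) := by
  have h1 := two_rep i
  have h2 : (3 : ℤ) ^ i ≤ 3 ^ n := pow_le_pow_right₀ (by norm_num) h
  have h3 := pow_three_pos i
  rw [mem_Ico]
  constructor
  · omega
  · omega

theorem rep_lt {i j : ℕ} (h : i < j) : rep i < rep j := by
  have h1 := two_rep i
  have h2 := two_rep j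
  have h3 : (3 : ℤ) ^ i < 3 ^ j := pow_lt_pow_right₀ (by norm_num) h
  omega

theorem rep_inj : Function.Injective rep := by
  intro i j hij
  rcases lt_trichotomy i j with h | h | h
  · exact absurd hij (rep_lt h).ne
  · exact h
  · exact absurd hij (rep_lt h).ne'

/-- moving the last point of a comb -/
theorem move {c : Finset ℤ → Bool} (hc : ∀ f, Sym3 f → ∀ S : Finset ℤ, c (S.image f) = c S)
    {I : Finset ℕ} (hI : I.Nonempty) {m n : ℕ} (hm : ∀ i ∈ I, i < m) (hmn : m ≤ n) :
    c (insert (rep m) (I.image rep)) = c (insert (rep n) (I.image rep)) := by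
  classical
  set p := I.max' hI with hp
  have hpI : p ∈ I := I.max'_mem hI
  have hpm : p < m := hm p hpI
  set t := rep n - rep m with ht
  have htd : (3 : ℤ) ^ (p + 1) ∣ t := by
    rcases Nat.eq_or_lt_of_le hmn with h | h
    · rw [ht, h, sub_self]; exact dvd_zero _
    · obtain ⟨u, hu⟩ := Nat.exists_eq_add_of_lt h
      obtain ⟨w, hw⟩ := rep_diff m u
      have : m + 1 + u = n := by omega
      rw [this] at hw
      rw [ht, hw]
      exact Dvd.dvd.mul_right (pow_dvd_pow 3 hpm) _
  let f : ℤ → ℤ := fun x => if (3 : ℤ) ^ (p + 1) ∣ x - rep m then x + t else x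
  have hf : Sym3 f := by
    intro l x y hl
    by_cases hx : (3 : ℤ) ^ (p + 1) ∣ x - rep m
    · by_cases hy : (3 : ℤ) ^ (p + 1) ∣ y - rep m
      · have : (f y - f x) - (y - x) = 0 := by simp only [f, if_pos hx, if_pos hy]; ring
        rw [this]; exact dvd_zero _
      · have h1 : (f y - f x) - (y - x) = -t := by simp only [f, if_pos hx, if_neg hy]; ring
        have h2 : l ≤ p := by
          by_contra hlp
          push Not at hlp
          apply hy
          have : y - rep m = (y - x) + (x - rep m) := by ring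
          rw [this]
          exact dvd_add ((pow_dvd_pow 3 hlp).trans hl) hx
        rw [h1]
        exact (dvd_neg).2 ((pow_dvd_pow 3 (by omega)).trans htd)
    · by_cases hy : (3 : ℤ) ^ (p + 1) ∣ y - rep m
      · have h1 : (f y - f x) - (y - x) = t := by simp only [f, if_neg hx, if_pos hy]; ring
        have h2 : l ≤ p := by
          by_contra hlp
          push Not at hlp
          apply hx
          have : x - rep m = (y - rep m) - (y - x) := by ring
          rw [this]
          exact dvd_sub hy ((pow_dvd_pow 3 hlp).trans hl)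
        rw [h1]
        exact (pow_dvd_pow 3 (by omega)).trans htd
      · have : (f y - f x) - (y - x) = 0 := by simp only [f, if_neg hx, if_neg hy]; ring
        rw [this]; exact dvd_zero _
  have h1 : (insert (rep m) (I.image rep)).image f = insert (rep n) (I.image rep) := by
    rw [image_insert]
    congr 1
    · simp only [f, sub_self, dvd_zero, if_true, ht]; ring
    · rw [image_image]
      apply image_congr
      intro i hi
      have hi' : i ∈ I := hi
      have hip : i ≤ p := I.le_max' i hi'
      obtain ⟨u, hu⟩ := Nat.exists_eq_add_of_lt (hm i hi')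
      obtain ⟨w, hw⟩ := rep_diff i u
      have hmu : i + 1 + u = m := by omega
      rw [hmu] at hw
      have h2 : ¬ (3 : ℤ) ^ (p + 1) ∣ rep i - rep m := by
        intro hd
        have hd' : (3 : ℤ) ^ (i + 1) ∣ 3 ^ i * (1 + 3 * w) := by
          rw [← hw, ← neg_sub]
          exact (dvd_neg).2 ((pow_dvd_pow 3 (by omega)).trans hd)
        rw [pow_succ] at hd'
        have h3 := Int.dvd_of_mul_dvd_mul_left (pow_three_pos i).ne' hd'
        omega
      simp only [f, Function.comp, if_neg h2]
  rw [← h1, hc f hf]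

/-- For colourings invariant under all symmetries of the tree the argument of Erdős and Rado
is not needed. -/
theorem sym_down {n r k : ℕ} (hr : 1 ≤ r) (h : Ram n r k) {c : Finset ℤ → Bool}
    (hc : ∀ f, Sym3 f → ∀ S : Finset ℤ, c (S.image f) = c S) :
    ∃ T ⊆ Ico (0 : ℤ) (3 ^ n), T.card = k + 1 ∧ ∃ b, ∀ e ⊆ T, e.card = r + 1 → c e = b := by
  classical
  obtain ⟨H, hH, hHc, b, hb⟩ := h (fun I => c (insert (rep n) (I.image rep)))
  have hn : n ∉ H := fun h => by have := mem_range.1 (hH h); omega
  refine ⟨(insert n H).image rep, ?_, ?_, b, ?_⟩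
  · intro x hx
    obtain ⟨i, hi, rfl⟩ := mem_image.1 hx
    apply rep_mem
    rcases mem_insert.1 hi with rfl | hi
    · exact le_rfl
    · exact (mem_range.1 (hH hi)).le
  · rw [card_image_of_injective _ rep_inj, card_insert_of_notMem hn, hHc]
  intro e he hec
  obtain ⟨J, hJ, rfl⟩ := subset_image_iff.1 he
  have hJ' : J ⊆ insert n H := by exact_mod_cast hJ
  rw [card_image_of_injective _ rep_inj] at hec
  have hJne : J.Nonempty := card_pos.1 (by omega)
  set m := J.max' hJne with hm
  have hmJ : m ∈ J := J.max'_mem hJne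
  have hJ0c : (J.erase m).card = r := by rw [card_erase_of_mem hmJ]; omega
  have hlt : ∀ i ∈ J.erase m, i < m := fun i hi =>
    lt_of_le_of_ne (J.le_max' i (mem_of_mem_erase hi)) (ne_of_mem_erase hi)
  have hmn : m ≤ n := by
    rcases mem_insert.1 (hJ' hmJ) with h | h
    · exact h.le
    · exact (mem_range.1 (hH h)).le
  have hJ0H : J.erase m ⊆ H := by
    intro i hi
    rcases mem_insert.1 (hJ' (mem_of_mem_erase hi)) with h | h
    · have := hlt i hi; omega
    · exact h
  have h1 : J.image rep = insert (rep m) ((J.erase m).image rep) := by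
    rw [← image_insert, insert_erase hmJ]
  rw [h1, move hc (card_pos.1 (by omega)) hlt hmn]
  exact hb (J.erase m) hJ0H hJ0c

end Pool.Agent.Q216.TI
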