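import Pool.Agent.Q216.TI.Tower

/-!
# The question in the form of the frozen statement
-/

set_option autoImplicit false

namespace Pool.Agent.Q216.TI

open Finset Pool.Agent.TH138.NF

/-- The question of the problem (the proposition of its frozen statement). -/
def Question : Prop :=
  ∀ r : ℕ, 3 ≤ r →
    ∃ c C : ℝ, 0 < c ∧ 0 < C ∧ ∃ N : ℕ, ∀ n : ℕ, N ≤ n →
      ∀ R : ℕ,
        R = sInf {m : ℕ | ∀ col : Finset (Fin m) → Bool,
              ∃ S : Finset (Fin m), S.card = n ∧ ∃ b : Bool,
                ∀ e : Finset (Fin m), e ⊆ S → e.card = r → col e = b} →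
        c * (n : ℝ) ≤ (Real.log)^[r - 1] (R : ℝ) ∧
          (Real.log)^[r - 1] (R : ℝ) ≤ C * (n : ℝ)

theorem ram_iff (m r n : ℕ) : (∀ col : Finset (Fin m) → Bool,
    ∃ S : Finset (Fin m), S.card = n ∧ ∃ b : Bool,
      ∀ e : Finset (Fin m), e ⊆ S → e.card = r → col e = b) ↔ Ram m r n := by
  classical
  constructor
  · intro h c
    obtain ⟨S, hS, b, hb⟩ := h (fun e => c (e.map Fin.valEmbedding))
    refine ⟨S.map Fin.valEmbedding, ?_, by rw [card_map, hS], b, ?_⟩
    · intro x hx
      obtain ⟨i, -, rfl⟩ := mem_map.1 hx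
      exact mem_range.2 i.2
    · intro e he hec
      have h1 : e = (S.filter (fun i : Fin m => (i : ℕ) ∈ e)).map Fin.valEmbedding := by
        ext x
        simp only [mem_map, mem_filter, Fin.valEmbedding_apply]
        constructor
        · intro hx
          obtain ⟨i, hi, hix⟩ := mem_map.1 (he hx)
          have hix' : (i : ℕ) = x := hix
          exact ⟨i, ⟨hi, hix' ▸ hx⟩, hix'⟩
        · rintro ⟨i, ⟨-, hi⟩, rfl⟩
          exact hi
      have h2 := hb (S.filter (fun i : Fin m => (i : ℕ) ∈ e)) (filter_subset _ _)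
        (by rw [← hec]; conv_rhs => rw [h1, card_map])
      rw [h1]
      exact h2
  · intro h col
    obtain ⟨H, hH, hHc, b, hb⟩ := h (fun I => col (univ.filter (fun i => (i : ℕ) ∈ I)))
    have hH1 : (univ.filter (fun i : Fin m => (i : ℕ) ∈ H)).map Fin.valEmbedding = H := by
      ext x
      simp only [mem_map, mem_filter, mem_univ, true_and, Fin.valEmbedding_apply]
      constructor
      · rintro ⟨i, hi, rfl⟩; exact hi
      · intro hx
        exact ⟨⟨x, mem_range.1 (hH hx)⟩, hx, rfl⟩
    refine ⟨univ.filter (fun i : Fin m => (i : ℕ) ∈ H), ?_, b, ?_⟩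
    · rw [← hHc]
      conv_rhs => rw [← hH1, card_map]
    · intro e he hec
      have h1 := hb (e.map Fin.valEmbedding) (by
        intro x hx
        obtain ⟨i, hi, rfl⟩ := mem_map.1 hx
        exact (mem_filter.1 (he hi)).2) (by rw [card_map, hec])
      have h2 : univ.filter (fun i : Fin m => (i : ℕ) ∈ e.map Fin.valEmbedding) = e := by
        ext i
        simp only [mem_filter, mem_univ, true_and, mem_map, Fin.valEmbedding_apply]
        constructor
        · rintro ⟨j, hj, hji⟩
          rwa [← Fin.ext hji]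
        · intro hi; exact ⟨i, hi, rfl⟩
      rw [← h1]
      exact congrArg col h2.symm

/-- towers of `e` -/
noncomputable def etow : ℕ → ℝ → ℝ
  | 0, x => x
  | k + 1, x => Real.exp (etow k x)

theorem log_iter {k : ℕ} : ∀ {x a b : ℝ}, etow k a ≤ x → x ≤ etow k b →
    a ≤ (Real.log)^[k] x ∧ (Real.log)^[k] x ≤ b := by
  induction k with
  | zero => intro x a b h1 h2; exact ⟨h1, h2⟩
  | succ k ih =>
    intro x a b h1 h2
    rw [Function.iterate_succ_apply]
    have hx : 0 < x := (Real.exp_pos _).trans_le h1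
    apply ih
    · exact (Real.le_log_iff_exp_le hx).2 h1
    · exact (Real.log_le_iff_le_exp hx).2 h2

theorem tow_le_etow (k : ℕ) {x : ℝ} (hx : 0 ≤ x) : tow k x ≤ etow k x := by
  induction k with
  | zero => exact le_rfl
  | succ k ih =>
    have h0 : 0 ≤ tow k x := tow_nonneg k hx
    calc (2 : ℝ) ^ tow k x = Real.exp (Real.log 2 * tow k x) :=
          Real.rpow_def_of_pos (by norm_num) _
      _ ≤ Real.exp (etow k x) := by
          apply Real.exp_le_exp.2
          have : Real.log 2 < 1 := by have := Real.log_two_lt_d9; linarith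
          nlinarith

theorem etow_le_tow (k : ℕ) {x : ℝ} (hx : 6 ≤ x) :
    etow k (x / 2) ≤ Real.log 2 * tow k x - 1 := by
  have hl : 0.69 < Real.log 2 := by have := Real.log_two_gt_d9; linarith
  induction k with
  | zero =>
    simp only [etow, tow]
    nlinarith
  | succ k ih =>
    have h1 : etow (k + 1) (x / 2) ≤ Real.exp (Real.log 2 * tow k x - 1) := Real.exp_le_exp.2 ih
    have h2 : Real.exp (Real.log 2 * tow k x - 1) = tow (k + 1) x / Real.exp 1 := by
      rw [Real.exp_sub]
      congr 1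
      exact (Real.rpow_def_of_pos (by norm_num) _).symm
    have h3 : 2.7 < Real.exp 1 := by have := Real.exp_one_gt_d9; linarith
    have h4 : (4 : ℝ) ≤ tow (k + 1) x := by
      have : (2 : ℝ) ≤ tow k x := by
        clear ih h1 h2
        induction k with
        | zero => simp only [tow]; linarith
        | succ k ih2 =>
          calc (2 : ℝ) = 2 ^ (1 : ℝ) := by norm_num
            _ ≤ 2 ^ tow k x := Real.rpow_le_rpow_of_exponent_le (by norm_num) (by linarith)
      calc (4 : ℝ) = 2 ^ (2 : ℝ) := by norm_num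
        _ ≤ 2 ^ tow k x := Real.rpow_le_rpow_of_exponent_le (by norm_num) this
    have h5 : tow (k + 1) x / Real.exp 1 ≤ tow (k + 1) x / 2.7 :=
      div_le_div_of_nonneg_left (by linarith) (by norm_num) h3.le
    rw [h2] at h1
    have h6 : tow (k + 1) x / 2.7 ≤ Real.log 2 * tow (k + 1) x - 1 := by
      rw [div_le_iff₀ (by norm_num)]
      nlinarith
    linarith

theorem question_of_lower (h : ∀ s, Lower (s + 2)) : Question := by
  classical
  intro r hr
  obtain ⟨s, rfl⟩ : ∃ s, r = s + 3 := ⟨r - 3, by omega⟩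
  obtain ⟨ε, hε, n₀, hlow⟩ := h s
  obtain ⟨C, hC, hup⟩ := upper_all (s + 2)
  obtain ⟨C', hC', hC1⟩ := tow_up (s + 2) C 1 hC le_rfl
  refine ⟨ε / 2, C', by positivity, hC', max n₀ (⌈6 / ε⌉₊ + 1), ?_⟩
  intro n hn R hR
  have hn0 : n₀ ≤ n := (le_max_left _ _).trans hn
  have hn1 : ⌈6 / ε⌉₊ + 1 ≤ n := (le_max_right _ _).trans hn
  have hn6 : 6 ≤ ε * n := by
    have h1 : 6 / ε ≤ n := (Nat.le_ceil _).trans (by exact_mod_cast (by omega : ⌈6 / ε⌉₊ ≤ n))
    rw [div_le_iff₀ hε] at h1
    linarith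
  have hset : {m : ℕ | ∀ col : Finset (Fin m) → Bool,
      ∃ S : Finset (Fin m), S.card = n ∧ ∃ b : Bool,
        ∀ e : Finset (Fin m), e ⊆ S → e.card = s + 3 → col e = b} = {m | Ram m (s + 3) n} := by
    ext m
    exact ram_iff m (s + 3) n
  rw [hset] at hR
  obtain ⟨N, hN, hNR⟩ := hlow n hn0
  have hmem : ⌈tow (s + 2) (C * n)⌉₊ ∈ {m | Ram m (s + 3) n} :=
    hup n (by omega) _ (Nat.le_ceil _)
  have hR1 : R ≤ ⌈tow (s + 2) (C * n)⌉₊ := hR ▸ Nat.sInf_le hmem
  have hR2 : Ram R (s + 3) n := hR ▸ Nat.sInf_mem ⟨_, hmem⟩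
  have hR3 : N ≤ R := by
    by_contra hcon
    push Not at hcon
    exact hNR (ram_mono hR2 hcon.le)
  have h0 : 0 ≤ tow (s + 2) (C * n) := tow_nonneg _ (by positivity)
  have hb1 : (R : ℝ) ≤ etow (s + 2) (C' * n) := by
    have h2 : (R : ℝ) ≤ tow (s + 2) (C * n) + 1 := by
      have h3 : (R : ℝ) ≤ ⌈tow (s + 2) (C * n)⌉₊ := by exact_mod_cast hR1
      exact h3.trans (Nat.ceil_lt_add_one h0).le
    have h4 := hC1 n (by omega)
    push_cast at h4
    have h5 := tow_le_etow (s + 2) (x := C' * n) (by positivity)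
    linarith
  have hb2 : etow (s + 2) (ε / 2 * n) ≤ R := by
    have h2 := etow_le_tow (s + 2) hn6
    have h3 : (N : ℝ) ≤ R := by exact_mod_cast hR3
    have h4 : Real.log 2 < 1 := by have := Real.log_two_lt_d9; linarith
    have h5 : 0 ≤ tow (s + 2) (ε * n) := tow_nonneg _ (by positivity)
    have h6 : ε * n / 2 = ε / 2 * n := by ring
    rw [h6] at h2
    nlinarith
  exact log_iter hb2 hb1

theorem lower_of_question (h : Question) : Lower 2 := by
  classical
  obtain ⟨c, C, hc, hC, n₀, h⟩ := h 3 le_rfl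
  refine ⟨c, hc, max n₀ (⌈1 / c⌉₊ + 1), ?_⟩
  intro n hn
  have hn0 : n₀ ≤ n := (le_max_left _ _).trans hn
  have hn1 : ⌈1 / c⌉₊ + 1 ≤ n := (le_max_right _ _).trans hn
  have hcn : 1 ≤ c * n := by
    have h1 : 1 / c ≤ n := (Nat.le_ceil _).trans (by exact_mod_cast (by omega : ⌈1 / c⌉₊ ≤ n))
    rw [div_le_iff₀ hc] at h1
    linarith
  have hset : {m : ℕ | ∀ col : Finset (Fin m) → Bool,
      ∃ S : Finset (Fin m), S.card = n ∧ ∃ b : Bool,
        ∀ e : Finset (Fin m), e ⊆ S → e.card = 3 → col e = b} = {m | Ram m 3 n} := by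
    ext m
    exact ram_iff m 3 n
  obtain ⟨h1, -⟩ := h n hn0 _ rfl
  rw [hset] at h1
  set R := sInf {m | Ram m 3 n} with hR
  change c * n ≤ Real.log (Real.log R) at h1
  have hlog : Real.exp (c * n) ≤ Real.log R := by
    have hpos : 0 < Real.log R := by
      have h0 : 0 ≤ Real.log R := Real.log_natCast_nonneg R
      rcases h0.eq_or_lt with h2 | h2
      · rw [← h2, Real.log_zero] at h1; linarith
      · exact h2
    exact (Real.le_log_iff_exp_le hpos).1 h1
  have hRR : Real.exp (Real.exp (c * n)) ≤ R := by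
    have hpos : (0 : ℝ) < R := by
      rcases Nat.eq_zero_or_pos R with h2 | h2
      · rw [h2, Nat.cast_zero, Real.log_zero] at hlog
        linarith [Real.exp_pos (c * n)]
      · exact_mod_cast h2
    exact (Real.le_log_iff_exp_le hpos).1 hlog
  have hl2 : Real.log 2 < 0.7 := by have := Real.log_two_lt_d9; linarith
  have hl2' : 0.69 < Real.log 2 := by have := Real.log_two_gt_d9; linarith
  -- tow 2 (c n) + 1 ≤ R
  have hkey : tow 2 (c * n) + 1 ≤ R := by
    refine le_trans ?_ hRR
    have e1 : (2 : ℝ) ^ (c * n) ≤ Real.exp (c * n) := by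
      rw [Real.rpow_def_of_pos (by norm_num)]
      apply Real.exp_le_exp.2
      nlinarith
    have e2 : (2 : ℝ) ≤ 2 ^ (c * n) := by
      calc (2 : ℝ) = 2 ^ (1 : ℝ) := by norm_num
        _ ≤ 2 ^ (c * n) := Real.rpow_le_rpow_of_exponent_le (by norm_num) hcn
    have e3 : tow 2 (c * n) = Real.exp (Real.log 2 * 2 ^ (c * n)) := by
      simp only [tow]
      exact Real.rpow_def_of_pos (by norm_num) _
    set y := (2 : ℝ) ^ (c * n) with hy
    have e4 : Real.exp (Real.log 2 * y) * (1 + 0.3 * y) ≤ Real.exp y := by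
      have : Real.exp y = Real.exp (Real.log 2 * y) * Real.exp ((1 - Real.log 2) * y) := by
        rw [← Real.exp_add]; congr 1; ring
      rw [this]
      apply mul_le_mul_of_nonneg_left _ (Real.exp_pos _).le
      have := Real.add_one_le_exp ((1 - Real.log 2) * y)
      nlinarith
    have e5 : 1 + Real.log 2 * y ≤ Real.exp (Real.log 2 * y) := by
      have := Real.add_one_le_exp (Real.log 2 * y)
      linarith
    have e6 : Real.exp y ≤ Real.exp (Real.exp (c * n)) := Real.exp_le_exp.2 e1
    rw [e3]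
    have e7 : 2 ≤ Real.exp (Real.log 2 * y) := by nlinarith
    have e8 : 4 ≤ Real.exp (Real.log 2 * y) * y := by nlinarith
    have e9 : Real.exp (Real.log 2 * y) * (1 + 0.3 * y) =
      Real.exp (Real.log 2 * y) + 0.3 * (Real.exp (Real.log 2 * y) * y) := by ring
    linarith
  have hR0 : 0 < R := by
    rcases Nat.eq_zero_or_pos R with h2 | h2
    · rw [h2] at hkey
      have := tow_nonneg 2 (x := c * n) (by positivity)
      push_cast at hkey
      linarith
    · exact h2
  refine ⟨R - 1, ?_, ?_⟩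
  · rw [Nat.cast_sub hR0]
    push_cast
    linarith
  · intro hram
    have : R ≤ R - 1 := Nat.sInf_le hram
    omega

end Pool.Agent.Q216.TI
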