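import Pool.Agent.Q216.TI.Ult

/-!
# The 3-adic tree of the integers
-/

set_option autoImplicit false

namespace Pool.Agent.Q216.TI

open Finset

/-- level of a pair of integers -/
def lev3 (x y : ℤ) : ℕ := padicValInt 3 (y - x)

/-- direction of a pair of integers -/
def dir3 (x y : ℤ) : Bool := decide ((y - x) / 3 ^ lev3 x y % 3 = 1)

theorem lev3_spec {x y : ℤ} (h : x ≠ y) : ∃ u : ℤ, y - x = 3 ^ lev3 x y * u ∧ ¬ (3 : ℤ) ∣ u := by
  have : Fact (Nat.Prime 3) := ⟨Nat.prime_three⟩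
  have h0 : y - x ≠ 0 := fun e => h (by linarith)
  have h1 : (3 : ℤ) ^ lev3 x y ∣ y - x := by
    have := (padicValInt_dvd_iff (p := 3) (lev3 x y) (y - x)).2 (Or.inr le_rfl)
    exact_mod_cast this
  obtain ⟨u, hu⟩ := h1
  refine ⟨u, hu, ?_⟩
  rintro ⟨w, rfl⟩
  have h2 : (3 : ℤ) ^ (lev3 x y + 1) ∣ y - x := ⟨w, by rw [pow_succ]; linarith⟩
  have h3 := (padicValInt_dvd_iff (p := 3) (lev3 x y + 1) (y - x)).1 (by exact_mod_cast h2)
  rcases h3 with h3 | h3
  · exact h0 h3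
  · unfold lev3 at h3; omega

theorem pow_three_pos (l : ℕ) : (0 : ℤ) < 3 ^ l := by positivity

theorem lev3_eq {x y : ℤ} {l : ℕ} {u : ℤ} (h1 : y - x = 3 ^ l * u) (h2 : ¬ (3 : ℤ) ∣ u) :
    lev3 x y = l ∧ dir3 x y = decide (u % 3 = 1) := by
  have : Fact (Nat.Prime 3) := ⟨Nat.prime_three⟩
  have hu : u ≠ 0 := by rintro rfl; exact h2 (dvd_zero _)
  have hxy : x ≠ y := by
    rintro rfl
    rw [sub_self] at h1
    have := mul_ne_zero (pow_three_pos l).ne' hu
    exact this h1.symm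
  obtain ⟨w, hw1, hw2⟩ := lev3_spec hxy
  have hl : lev3 x y = l := by
    rcases lt_trichotomy (lev3 x y) l with h | h | h
    · exfalso
      apply hw2
      obtain ⟨t, ht⟩ := Nat.exists_eq_add_of_lt h
      have h4 : (3 : ℤ) ^ lev3 x y * w = 3 ^ lev3 x y * (3 ^ (t + 1) * u) := by
        rw [← hw1, h1, ht, ← mul_assoc, ← pow_add]
        rfl
      have h5 := mul_left_cancel₀ (pow_three_pos _).ne' h4
      rw [h5, pow_succ]
      exact ⟨3 ^ t * u, by ring⟩
    · exact h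
    · exfalso
      apply h2
      obtain ⟨t, ht⟩ := Nat.exists_eq_add_of_lt h
      have h4 : (3 : ℤ) ^ l * u = 3 ^ l * (3 ^ (t + 1) * w) := by
        rw [← h1, hw1, ht, ← mul_assoc, ← pow_add]
        rfl
      have h5 := mul_left_cancel₀ (pow_three_pos _).ne' h4
      rw [h5, pow_succ]
      exact ⟨3 ^ t * w, by ring⟩
  refine ⟨hl, ?_⟩
  unfold dir3
  rw [hl, h1, Int.mul_ediv_cancel_left _ (pow_three_pos l).ne']

/-- The tree. -/
def tree : Ult ℤ where
  lev := lev3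
  dir := dir3
  lev_comm := by
    intro x y
    by_cases h : x = y
    · rw [h]
    · obtain ⟨u, h1, h2⟩ := lev3_spec h
      have h3 : x - y = 3 ^ lev3 x y * (-u) := by rw [mul_neg, ← h1]; ring
      exact ((lev3_eq h3 (fun h => h2 ((dvd_neg).1 h))).1).symm
  anti := by
    intro x y h
    obtain ⟨u, h1, h2⟩ := lev3_spec h
    have h3 : x - y = 3 ^ lev3 x y * (-u) := by rw [mul_neg, ← h1]; ring
    rw [(lev3_eq h3 (fun h => h2 ((dvd_neg).1 h))).2, (lev3_eq h1 h2).2]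
    have h4 : u % 3 = 1 ∨ u % 3 = 2 := by omega
    rcases h4 with h4 | h4
    · have h5 : ¬ (-u) % 3 = 1 := by omega
      simp [h4, h5]
    · have h5 : (-u) % 3 = 1 := by omega
      have h6 : ¬ u % 3 = 1 := by omega
      simp [h5, h6]
  iso := by
    intro x y z hxy hxz hyz hl
    obtain ⟨u, h1, h2⟩ := lev3_spec hxy
    obtain ⟨w, h3, h4⟩ := lev3_spec hyz
    obtain ⟨t, ht⟩ := Nat.exists_eq_add_of_lt hl
    have h5 : z - x = 3 ^ lev3 x y * (u + 3 * (3 ^ t * w)) := by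
      have : z - x = (y - x) + (z - y) := by ring
      rw [this, h1, h3, ht]
      ring
    have h6 : ¬ (3 : ℤ) ∣ (u + 3 * (3 ^ t * w)) := by
      intro h
      exact h2 ((Int.dvd_add_left ⟨_, rfl⟩).1 h)
    obtain ⟨h7, h8⟩ := lev3_eq h5 h6
    refine ⟨h7, ?_⟩
    rw [h8, (lev3_eq h1 h2).2]
    congr 1
    rw [Int.add_mul_emod_self_left]
  four := by
    intro a b c d hab hac had hbc hbd hcd e1 e2 e3 e4 e5
    obtain ⟨u, h1, h2⟩ := lev3_spec hab
    obtain ⟨v, h3, h4⟩ := lev3_spec hac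
    obtain ⟨w, h5, h6⟩ := lev3_spec had
    obtain ⟨p, h7, h8⟩ := lev3_spec hbc
    obtain ⟨q, h9, h10⟩ := lev3_spec hbd
    obtain ⟨r, h11, h12⟩ := lev3_spec hcd
    rw [← e1] at h3
    rw [← e2] at h5
    rw [← e3] at h7
    rw [← e4] at h9
    rw [← e5] at h11
    have hP := (pow_three_pos (lev3 a b)).ne'
    have g1 : p = v - u := by
      apply mul_left_cancel₀ hP
      rw [mul_sub, ← h3, ← h1, ← h7]; ring
    have g2 : q = w - u := by
      apply mul_left_cancel₀ hP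
      rw [mul_sub, ← h5, ← h1, ← h9]; ring
    have g3 : r = w - v := by
      apply mul_left_cancel₀ hP
      rw [mul_sub, ← h5, ← h3, ← h11]; ring
    subst g1 g2 g3
    omega

/-- The maps of the integers that preserve levels and directions. -/
def Sym3 (f : ℤ → ℤ) : Prop :=
  ∀ (l : ℕ) (x y : ℤ), (3 : ℤ) ^ l ∣ y - x → (3 : ℤ) ^ (l + 1) ∣ (f y - f x) - (y - x)

theorem sym3_pair {f : ℤ → ℤ} (hf : Sym3 f) {x y : ℤ} (h : x ≠ y) :
    f x ≠ f y ∧ lev3 (f x) (f y) = lev3 x y ∧ dir3 (f x) (f y) = dir3 x y := by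
  obtain ⟨u, h1, h2⟩ := lev3_spec h
  obtain ⟨w, hw⟩ := hf (lev3 x y) x y ⟨u, h1⟩
  have h3 : f y - f x = 3 ^ lev3 x y * (u + 3 * w) := by
    have : f y - f x = (y - x) + 3 ^ (lev3 x y + 1) * w := by rw [← hw]; ring
    rw [this, h1, pow_succ]; ring
  have h4 : ¬ (3 : ℤ) ∣ (u + 3 * w) := by
    intro h
    exact h2 ((Int.dvd_add_left ⟨_, rfl⟩).1 h)
  obtain ⟨h5, h6⟩ := lev3_eq h3 h4
  refine ⟨?_, h5, ?_⟩
  · intro e
    rw [e, sub_self] at h3
    have h7 : u + 3 * w ≠ 0 := by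
      intro h; exact h4 (h ▸ dvd_zero _)
    exact mul_ne_zero (pow_three_pos _).ne' h7 h3.symm
  · rw [h6, (lev3_eq h1 h2).2]
    congr 1
    rw [Int.add_mul_emod_self_left]

theorem sym3_mono {f : ℤ → ℤ} (hf : Sym3 f) (d : Bool) (S : Finset ℤ) :
    tree.Mono d (S.image f) ↔ tree.Mono d S := by
  constructor
  · intro h x hx y hy z hz hxy hyz h1 h2
    have a1 := sym3_pair hf hxy
    have a2 := sym3_pair hf hyz
    have h3 := h (f x) (mem_image_of_mem f hx) (f y) (mem_image_of_mem f hy) (f z)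
      (mem_image_of_mem f hz) a1.1 a2.1 (a1.2.2.trans h1) (a2.2.2.trans h2)
    change lev3 (f x) (f y) < lev3 (f y) (f z) at h3
    rw [a1.2.1, a2.2.1] at h3
    exact h3
  · intro h x' hx' y' hy' z' hz' hxy hyz h1 h2
    obtain ⟨x, hx, rfl⟩ := mem_image.1 hx'
    obtain ⟨y, hy, rfl⟩ := mem_image.1 hy'
    obtain ⟨z, hz, rfl⟩ := mem_image.1 hz'
    have hxy' : x ≠ y := fun e => hxy (by rw [e])
    have hyz' : y ≠ z := fun e => hyz (by rw [e])
    have a1 := sym3_pair hf hxy'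
    have a2 := sym3_pair hf hyz'
    have h3 := h x hx y hy z hz hxy' hyz' (a1.2.2.symm.trans h1) (a2.2.2.symm.trans h2)
    change lev3 (f x) (f y) < lev3 (f y) (f z)
    rw [a1.2.1, a2.2.1]
    exact h3

theorem sym3_levels {f : ℤ → ℤ} (hf : Sym3 f) (S : Finset ℤ) :
    tree.levels (S.image f) = tree.levels S := by
  ext l
  rw [tree.mem_levels, tree.mem_levels]
  constructor
  · rintro ⟨x', hx', y', hy', hne, hl⟩
    obtain ⟨x, hx, rfl⟩ := mem_image.1 hx'
    obtain ⟨y, hy, rfl⟩ := mem_image.1 hy'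
    have hne' : x ≠ y := fun e => hne (by rw [e])
    exact ⟨x, hx, y, hy, hne', ((sym3_pair hf hne').2.1).symm.trans hl⟩
  · rintro ⟨x, hx, y, hy, hne, hl⟩
    have a := sym3_pair hf hne
    exact ⟨f x, mem_image_of_mem f hx, f y, mem_image_of_mem f hy, a.1, a.2.1.trans hl⟩

theorem sym3_split {f : ℤ → ℤ} (hf : Sym3 f) (S : Finset ℤ) :
    tree.Split (S.image f) ↔ tree.Split S := by
  have hinj : ∀ x y, f x = f y → x = y := fun x y h => by
    by_contra hne
    exact (sym3_pair hf hne).1 h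
  constructor
  · rintro ⟨y', hy', h⟩
    obtain ⟨y, hy, rfl⟩ := mem_image.1 hy'
    refine ⟨y, hy, fun x hx z hz hxy hzy hxz => ?_⟩
    have h3 := h (f x) (mem_image_of_mem f hx) (f z) (mem_image_of_mem f hz)
      (fun e => hxy (hinj _ _ e)) (fun e => hzy (hinj _ _ e)) (fun e => hxz (hinj _ _ e))
    change lev3 (f y) (f x) < lev3 (f x) (f z) at h3
    rw [(sym3_pair hf (Ne.symm hxy)).2.1, (sym3_pair hf hxz).2.1] at h3
    exact h3
  · rintro ⟨y, hy, h⟩
    refine ⟨f y, mem_image_of_mem f hy, fun x' hx' z' hz' hxy hzy hxz => ?_⟩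
    obtain ⟨x, hx, rfl⟩ := mem_image.1 hx'
    obtain ⟨z, hz, rfl⟩ := mem_image.1 hz'
    have hxy' : x ≠ y := fun e => hxy (by rw [e])
    have hzy' : z ≠ y := fun e => hzy (by rw [e])
    have hxz' : x ≠ z := fun e => hxz (by rw [e])
    change lev3 (f y) (f x) < lev3 (f x) (f z)
    rw [(sym3_pair hf (Ne.symm hxy')).2.1, (sym3_pair hf hxz').2.1]
    exact h x hx z hz hxy' hzy' hxz'

theorem sym3_col {f : ℤ → ℤ} (hf : Sym3 f) (φ : Finset ℕ → Bool) (S : Finset ℤ) :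
    tree.col φ (S.image f) = tree.col φ S := by
  unfold Ult.col
  have h1 : (∃ d, tree.Mono d (S.image f)) ↔ ∃ d, tree.Mono d S :=
    exists_congr (fun d => sym3_mono hf d S)
  by_cases h : ∃ d, tree.Mono d S
  · rw [if_pos h, if_pos (h1.2 h), sym3_levels hf]
  · rw [if_neg h, if_neg (fun h' => h (h1.1 h'))]
    congr 1
    exact propext (sym3_split hf S)

theorem sym3_translate (t : ℤ) : Sym3 (fun x => x + t) := by
  intro l x y _
  have : (y + t - (x + t)) - (y - x) = 0 := by ring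
  show (3 : ℤ) ^ (l + 1) ∣ (y + t - (x + t)) - (y - x)
  rw [this]
  exact dvd_zero _

theorem levels_range {n : ℕ} {X : Finset ℤ} (hX : X ⊆ Ico 0 (3 ^ n)) :
    tree.levels X ⊆ range n := by
  intro l hl
  obtain ⟨x, hx, y, hy, hne, h⟩ := tree.mem_levels.1 hl
  obtain ⟨u, h1, h2⟩ := lev3_spec hne
  change lev3 x y = l at h
  rw [h] at h1
  rw [mem_range]
  by_contra hc
  push Not at hc
  have hx' := mem_Ico.1 (hX hx)
  have hy' := mem_Ico.1 (hX hy)
  have hu : u ≠ 0 := by rintro rfl; exact h2 (dvd_zero _)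
  have hpow : (3 : ℤ) ^ n ≤ 3 ^ l := pow_le_pow_right₀ (by norm_num) hc
  have h3 : |y - x| < 3 ^ n := by
    rw [abs_lt]
    constructor <;> linarith [hx'.1, hx'.2, hy'.1, hy'.2]
  rw [h1, abs_mul, abs_of_pos (pow_three_pos l)] at h3
  have h4 : 1 ≤ |u| := Int.one_le_abs hu
  nlinarith [pow_three_pos l]

/-- Pairwise incongruent integers modulo `3 ^ n`: all levels are below `n`. -/
theorem levels_range' {n : ℕ} {X : Finset ℤ}
    (hX : ∀ x ∈ X, ∀ y ∈ X, x ≠ y → ¬ (3 : ℤ) ^ n ∣ y - x) : tree.levels X ⊆ range n := by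
  intro l hl
  obtain ⟨x, hx, y, hy, hne, h⟩ := tree.mem_levels.1 hl
  obtain ⟨u, h1, h2⟩ := lev3_spec hne
  change lev3 x y = l at h
  rw [h] at h1
  rw [mem_range]
  by_contra hc
  push Not at hc
  exact hX x hx y hy hne (h1 ▸ Dvd.dvd.mul_right (pow_dvd_pow 3 hc) u)

end Pool.Agent.Q216.TI
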