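import Pool.Agent.Q216.TI.Down

/-!
# Towers
-/

set_option autoImplicit false

namespace Pool.Agent.Q216.TI

open Finset Pool.Agent.TH138.NF

theorem tow_nonneg (k : ℕ) {x : ℝ} (hx : 0 ≤ x) : 0 ≤ tow k x := by
  cases k with
  | zero => exact hx
  | succ k => exact (Real.rpow_pos_of_pos (by norm_num) _).le

theorem one_le_tow {k : ℕ} (hk : 1 ≤ k) {x : ℝ} (hx : 0 ≤ x) : 1 ≤ tow k x := by
  obtain ⟨k, rfl⟩ : ∃ j, k = j + 1 := ⟨k - 1, by omega⟩
  exact Real.one_le_rpow (by norm_num) (tow_nonneg k hx)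

theorem tow_mono (k : ℕ) {x y : ℝ} (h : x ≤ y) : tow k x ≤ tow k y := by
  induction k with
  | zero => exact h
  | succ k ih => exact Real.rpow_le_rpow_of_exponent_le (by norm_num) ih

theorem two_pow_nat (m : ℕ) : (2 : ℝ) ^ (m : ℝ) = 2 ^ m := Real.rpow_natCast 2 m

theorem nat_le_two_rpow {D : ℕ} : (D : ℝ) ≤ 2 ^ (D : ℝ) := by
  rw [two_pow_nat]
  exact_mod_cast Nat.lt_two_pow_self.le

theorem self_le_two_rpow (x : ℝ) : x ≤ 2 ^ x := by
  by_cases hx : x ≤ 0
  · exact hx.trans (Real.rpow_pos_of_pos (by norm_num) x).le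
  · push Not at hx
    have h1 : Real.log 2 * x + 1 ≤ Real.exp (Real.log 2 * x) := Real.add_one_le_exp _
    have h2 : (2 : ℝ) ^ x = Real.exp (Real.log 2 * x) := Real.rpow_def_of_pos (by norm_num) x
    have h3 : 0.69 < Real.log 2 := by have := Real.log_two_gt_d9; linarith
    -- x ≤ 2 ^ x via (1 + x) ≤ 2 ^ x for x ≥ 1 and x ≤ 1 ≤ 2 ^ x otherwise
    by_cases h1x : x ≤ 1
    · exact h1x.trans (Real.one_le_rpow (by norm_num) hx.le)
    · push Not at h1x
      have h4 : (1 + x * 1) ≤ (1 + (1 : ℝ)) ^ x := one_add_mul_self_le_rpow_one_add (by norm_num)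
        h1x.le
      norm_num at h4
      linarith

theorem tow_up (k : ℕ) : ∀ (C : ℝ) (D : ℕ), 0 < C → 1 ≤ D → ∃ C' : ℝ, 0 < C' ∧ ∀ n : ℕ, 1 ≤ n →
    D * tow k (C * n) + D ≤ tow k (C' * n) := by
  induction k with
  | zero =>
    intro C D hC hD
    have hD' : (1 : ℝ) ≤ D := by exact_mod_cast hD
    refine ⟨D * C + D, by positivity, ?_⟩
    intro n hn
    have hn' : (1 : ℝ) ≤ n := by exact_mod_cast hn
    simp only [tow]
    nlinarith
  | succ k ih =>
    intro C D hC hD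
    obtain ⟨C', hC', h⟩ := ih C (2 * D) hC (by omega)
    refine ⟨C', hC', ?_⟩
    intro n hn
    have h1 := h n hn
    have h0 : 0 ≤ tow k (C * n) := tow_nonneg k (by positivity)
    have hpos : (1 : ℝ) ≤ 2 ^ tow k (C * n) := Real.one_le_rpow (by norm_num) h0
    have hD' : (1 : ℝ) ≤ D := by exact_mod_cast hD
    simp only [tow]
    calc (D : ℝ) * 2 ^ tow k (C * n) + D ≤ (2 * D : ℕ) * 2 ^ tow k (C * n) := by
          push_cast; nlinarith
      _ ≤ 2 ^ ((2 * D : ℕ) : ℝ) * 2 ^ tow k (C * n) := by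
          apply mul_le_mul_of_nonneg_right nat_le_two_rpow (by positivity)
      _ = 2 ^ (((2 * D : ℕ) : ℝ) + tow k (C * n)) := by
          rw [Real.rpow_add (by norm_num)]
      _ ≤ 2 ^ tow k (C' * n) := by
          apply Real.rpow_le_rpow_of_exponent_le (by norm_num)
          have hD2 : (1 : ℝ) ≤ ((2 * D : ℕ) : ℝ) := by push_cast; linarith
          nlinarith

theorem tow_dn (k : ℕ) : ∀ D : ℕ, 1 ≤ D → ∃ x0 : ℝ, 0 < x0 ∧ ∀ x : ℝ, x0 ≤ x →
    D * tow (k + 1) (x / 2) + D ≤ tow (k + 1) x := by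
  induction k with
  | zero =>
    intro D hD
    refine ⟨4 * D, by positivity, ?_⟩
    intro x hx
    have hD' : (1 : ℝ) ≤ D := by exact_mod_cast hD
    have hx0 : 0 ≤ x := by nlinarith
    have hpos : (1 : ℝ) ≤ 2 ^ (x / 2) := Real.one_le_rpow (by norm_num) (by positivity)
    simp only [tow]
    calc (D : ℝ) * 2 ^ (x / 2) + D ≤ (2 * D : ℕ) * 2 ^ (x / 2) := by push_cast; nlinarith
      _ ≤ 2 ^ ((2 * D : ℕ) : ℝ) * 2 ^ (x / 2) := by
          apply mul_le_mul_of_nonneg_right nat_le_two_rpow (by positivity)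
      _ = 2 ^ (((2 * D : ℕ) : ℝ) + x / 2) := by rw [Real.rpow_add (by norm_num)]
      _ ≤ 2 ^ x := by
          apply Real.rpow_le_rpow_of_exponent_le (by norm_num)
          push_cast; linarith
  | succ k ih =>
    intro D hD
    obtain ⟨x0, hx0, h⟩ := ih (2 * D) (by omega)
    refine ⟨x0, hx0, ?_⟩
    intro x hx
    have h1 := h x hx
    have hx' : 0 ≤ x / 2 := by linarith
    have h0 : 0 ≤ tow (k + 1) (x / 2) := tow_nonneg _ hx'
    have hpos : (1 : ℝ) ≤ 2 ^ tow (k + 1) (x / 2) := Real.one_le_rpow (by norm_num) h0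
    have hD' : (1 : ℝ) ≤ D := by exact_mod_cast hD
    rw [tow, tow]
    calc (D : ℝ) * 2 ^ tow (k + 1) (x / 2) + D ≤ (2 * D : ℕ) * 2 ^ tow (k + 1) (x / 2) := by
          push_cast; nlinarith
      _ ≤ 2 ^ ((2 * D : ℕ) : ℝ) * 2 ^ tow (k + 1) (x / 2) := by
          apply mul_le_mul_of_nonneg_right nat_le_two_rpow (by positivity)
      _ = 2 ^ (((2 * D : ℕ) : ℝ) + tow (k + 1) (x / 2)) := by
          rw [Real.rpow_add (by norm_num)]
      _ ≤ 2 ^ tow (k + 1) x := by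
          apply Real.rpow_le_rpow_of_exponent_le (by norm_num)
          have hD2 : (1 : ℝ) ≤ ((2 * D : ℕ) : ℝ) := by push_cast; linarith
          nlinarith

/-- the arithmetic of the step of Erdős and Rado -/
theorem er_arith {s : ℕ} {M N : ℕ} {y z : ℝ} (hy : 0 ≤ y) (hM : (M : ℝ) ≤ tow (s + 1) y + 1)
    (h : ((2 * s + 5 : ℕ) : ℝ) * tow s y + ((2 * s + 5 : ℕ) : ℝ) ≤ tow s z)
    (hN : tow (s + 2) z ≤ N) : (2 * 2 ^ ((s + 2) * M ^ (s + 1))) ^ M ≤ N := by
  have h1 : (1 : ℝ) ≤ tow (s + 1) y := one_le_tow (by omega) hy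
  have hM2 : (M : ℝ) ≤ 2 * tow (s + 1) y := by linarith
  rcases Nat.eq_zero_or_pos M with h0 | h0
  · subst h0
    have : (1 : ℝ) ≤ N := by
      refine le_trans ?_ hN
      exact Real.one_le_rpow (by norm_num) (Real.rpow_pos_of_pos (by norm_num) _).le
    simp only [pow_zero]
    exact_mod_cast this
  have e1 : (2 * 2 ^ ((s + 2) * M ^ (s + 1))) ^ M = 2 ^ ((1 + (s + 2) * M ^ (s + 1)) * M) := by
    rw [← pow_succ', ← pow_mul, Nat.add_comm 1]
  rw [e1]
  have e2 : (1 + (s + 2) * M ^ (s + 1)) * M ≤ (s + 3) * M ^ (s + 2) := by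
    have h3 : 1 ≤ M ^ (s + 1) := Nat.one_le_pow _ _ h0
    calc (1 + (s + 2) * M ^ (s + 1)) * M ≤ (M ^ (s + 1) + (s + 2) * M ^ (s + 1)) * M :=
          Nat.mul_le_mul_right _ (by omega)
      _ = (s + 3) * M ^ (s + 2) := by ring
  have e3 : (((s + 3) * M ^ (s + 2) : ℕ) : ℝ) ≤ tow (s + 1) z := by
    push_cast
    have h4 : (M : ℝ) ^ (s + 2) ≤ (2 * tow (s + 1) y) ^ (s + 2) :=
      pow_le_pow_left₀ (by positivity) hM2 _
    have h5 : (2 * tow (s + 1) y) ^ (s + 2) = 2 ^ (((s + 2 : ℕ) : ℝ) + (s + 2 : ℕ) * tow s y) := by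
      rw [mul_pow, Real.rpow_add (by norm_num), two_pow_nat]
      congr 1
      rw [tow, mul_comm ((s + 2 : ℕ) : ℝ), Real.rpow_mul (by norm_num), Real.rpow_natCast]
    have h6 : ((s : ℝ) + 3) ≤ 2 ^ (((s + 3 : ℕ)) : ℝ) := by
      have := nat_le_two_rpow (D := s + 3)
      push_cast at this ⊢
      exact this
    have h7 : 0 ≤ tow s y := tow_nonneg _ hy
    calc ((s : ℝ) + 3) * (M : ℝ) ^ (s + 2)
        ≤ 2 ^ (((s + 3 : ℕ)) : ℝ) * 2 ^ (((s + 2 : ℕ) : ℝ) + (s + 2 : ℕ) * tow s y) := by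
          rw [← h5]
          exact mul_le_mul h6 h4 (by positivity) (by positivity)
      _ = 2 ^ (((s + 3 : ℕ)) + (((s + 2 : ℕ) : ℝ) + (s + 2 : ℕ) * tow s y)) := by
          rw [← Real.rpow_add (by norm_num)]
      _ ≤ 2 ^ tow s z := by
          apply Real.rpow_le_rpow_of_exponent_le (by norm_num)
          push_cast at h ⊢
          nlinarith
      _ = tow (s + 1) z := rfl
  have e4 : ((2 ^ ((1 + (s + 2) * M ^ (s + 1)) * M) : ℕ) : ℝ) ≤ N := by
    refine le_trans ?_ hN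
    push_cast
    rw [← two_pow_nat, tow]
    apply Real.rpow_le_rpow_of_exponent_le (by norm_num)
    refine le_trans ?_ e3
    exact_mod_cast e2
  exact_mod_cast e4

/-- the lower half of the question, in uniformity `s + 1` -/
def Lower (s : ℕ) : Prop :=
  ∃ ε : ℝ, 0 < ε ∧ ∃ n₀ : ℕ, ∀ n : ℕ, n₀ ≤ n → ∃ N : ℕ, tow s (ε * n) ≤ N ∧ ¬ Ram N (s + 1) n

/-- the lower half for symmetric colourings, in uniformity `s + 1` -/
def LowerS (K : (Finset ℤ → Bool) → Prop) (s : ℕ) : Prop :=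
  ∃ ε : ℝ, 0 < ε ∧ ∃ n₀ : ℕ, ∀ n : ℕ, n₀ ≤ n → ∃ (N : ℕ) (c : Finset ℤ → Bool),
    tow s (ε * n) ≤ N ∧ K c ∧ ∀ H ⊆ Ico (0 : ℤ) N, H.card = n →
      ¬ ∃ b, ∀ e ⊆ H, e.card = s + 1 → c e = b

/-- going down one step -/
theorem lower_down {s : ℕ} (h : Lower (s + 3)) : Lower (s + 2) := by
  obtain ⟨ε, hε, n₀, h⟩ := h
  obtain ⟨x0, hx0, hx⟩ := tow_dn s (2 * (s + 1) + 5) (by omega)
  refine ⟨ε / 2, by positivity, max n₀ (⌈x0 / ε⌉₊ + 1), ?_⟩
  intro n hn
  obtain ⟨N, hN, hR⟩ := h n ((le_max_left _ _).trans hn)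
  have hn2 : ⌈x0 / ε⌉₊ ≤ n := by
    have := (le_max_right n₀ (⌈x0 / ε⌉₊ + 1)).trans hn
    omega
  have hxn : x0 ≤ ε * n := by
    have h1 : x0 / ε ≤ n := (Nat.le_ceil _).trans (by exact_mod_cast hn2)
    rw [div_le_iff₀ hε] at h1
    linarith
  have h3 := hx (ε * n) hxn
  have e0 : ε * n / 2 = ε / 2 * n := by ring
  rw [e0] at h3
  refine ⟨⌈tow (s + 2) (ε / 2 * n)⌉₊, Nat.le_ceil _, ?_⟩
  intro hram
  apply hR
  refine er_step hram ?_
  refine er_arith (s := s + 1) (y := ε / 2 * n) (z := ε * n) (by positivity) ?_ ?_ hN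
  · exact (Nat.ceil_lt_add_one (tow_nonneg _ (by positivity))).le
  · exact h3

/-- the upper half of the question, in uniformity `s + 1` -/
theorem upper_all (s : ℕ) : ∃ C : ℝ, 0 < C ∧ ∀ n : ℕ, 1 ≤ n → ∀ N : ℕ, tow s (C * n) ≤ N →
    Ram N (s + 1) n := by
  classical
  induction s with
  | zero =>
    refine ⟨2, by norm_num, ?_⟩
    intro n hn N hN
    have hN' : 2 * n ≤ N := by
      simp only [tow] at hN
      exact_mod_cast hN
    intro c
    -- pigeonhole
    have h1 : ((range N).filter (fun i => c {i} = true)).card +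
        ((range N).filter (fun i => ¬ c {i} = true)).card = N := by
      rw [card_filter_add_card_filter_not, card_range]
    have h2 : n ≤ ((range N).filter (fun i => c {i} = true)).card ∨
        n ≤ ((range N).filter (fun i => ¬ c {i} = true)).card := by omega
    rcases h2 with h | h
    · obtain ⟨H, hH, hc⟩ := exists_subset_card_eq h
      refine ⟨H, hH.trans (filter_subset _ _), hc, true, ?_⟩
      intro e he hec
      obtain ⟨a, rfl⟩ := card_eq_one.1 hec
      exact (mem_filter.1 (hH (he (mem_singleton_self a)))).2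
    · obtain ⟨H, hH, hc⟩ := exists_subset_card_eq h
      refine ⟨H, hH.trans (filter_subset _ _), hc, false, ?_⟩
      intro e he hec
      obtain ⟨a, rfl⟩ := card_eq_one.1 hec
      have := (mem_filter.1 (hH (he (mem_singleton_self a)))).2
      simpa using this
  | succ s ih =>
    obtain ⟨C, hC, h⟩ := ih
    cases s with
    | zero =>
      refine ⟨2 * C + 2, by positivity, ?_⟩
      intro n hn N hN
      have hM : Ram ⌈C * n⌉₊ 1 n := h n hn _ (Nat.le_ceil _)
      refine er_step hM ?_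
      have hn' : (1 : ℝ) ≤ n := by exact_mod_cast hn
      have h1 : (⌈C * (n : ℝ)⌉₊ : ℝ) ≤ C * n + 1 := (Nat.ceil_lt_add_one (by positivity)).le
      have h2 : (((2 * 2 ^ ((0 + 1) * ⌈C * (n : ℝ)⌉₊ ^ 0)) ^ ⌈C * (n : ℝ)⌉₊ : ℕ) : ℝ) ≤ N := by
        refine le_trans ?_ hN
        have e1 : (2 * 2 ^ ((0 + 1) * ⌈C * (n : ℝ)⌉₊ ^ 0)) ^ ⌈C * (n : ℝ)⌉₊ =
            2 ^ (2 * ⌈C * (n : ℝ)⌉₊) := by
          rw [pow_zero, zero_add, one_mul, pow_one, pow_mul]
          norm_num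
        rw [e1]
        push_cast
        rw [← two_pow_nat]
        simp only [tow]
        apply Real.rpow_le_rpow_of_exponent_le (by norm_num)
        push_cast
        nlinarith
      exact_mod_cast h2
    | succ s =>
      obtain ⟨C', hC', h'⟩ := tow_up s C (2 * s + 5) hC (by omega)
      refine ⟨C', hC', ?_⟩
      intro n hn N hN
      have hM : Ram ⌈tow (s + 1) (C * n)⌉₊ (s + 1 + 1) n := h n hn _ (Nat.le_ceil _)
      refine er_step hM ?_
      exact er_arith (s := s) (y := C * n) (z := C' * n) (by positivity)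
        (Nat.ceil_lt_add_one (tow_nonneg _ (by positivity))).le (h' n hn) hN

/-- going up one step, with symmetric colourings -/
theorem lower_up {s : ℕ} (h : Lower (s + 2)) :
    LowerS (fun c => ∀ f, Sym3 f → ∀ S : Finset ℤ, c (S.image f) = c S) (s + 3) := by
  classical
  obtain ⟨ε, hε, n₀, h⟩ := h
  refine ⟨ε / 4, by positivity, 3 * n₀ + 12 * (s + 4) + 12, ?_⟩
  intro n hn
  set m := n / 3 - (s + 3) with hm
  have hm0 : n₀ ≤ m := by omega
  have hm1 : 3 * m + 3 * (s + 3) ≤ n := by omega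
  have hm2 : n ≤ 4 * m := by omega
  obtain ⟨N, hN, hR⟩ := h m hm0
  unfold Ram at hR
  push Not at hR
  obtain ⟨φ, hφ⟩ := hR
  have hφ' : ∀ H ⊆ range N, H.card = m → ¬ ∃ b, ∀ e ⊆ H, e.card = s + 2 + 1 → φ e = b := by
    intro H hH hHc
    rintro ⟨b, hb⟩
    obtain ⟨e, he1, he2, he3⟩ := hφ H hH hHc b
    exact he3 (hb e he1 he2)
  refine ⟨3 ^ N, tree.col φ, ?_, fun f hf S => sym3_col hf φ S, ?_⟩
  · have h1 : tow (s + 3) (ε / 4 * n) ≤ (2 : ℝ) ^ (N : ℝ) := by
      rw [tow]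
      apply Real.rpow_le_rpow_of_exponent_le (by norm_num)
      refine le_trans (tow_mono _ ?_) hN
      have hm2' : (n : ℝ) ≤ 4 * m := by exact_mod_cast hm2
      nlinarith
    refine h1.trans ?_
    rw [two_pow_nat]
    push_cast
    exact pow_le_pow_left₀ (by norm_num) (by norm_num) _
  · intro H hH hHc
    refine tree.step_up φ (r := s + 2 + 1) (k := m) (by omega) (range N) hφ' H
      (levels_range (by exact_mod_cast hH)) (by omega)

theorem lowerS_weaken {K K' : (Finset ℤ → Bool) → Prop} (hK : ∀ c, K c → K' c) {s : ℕ}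
    (h : LowerS K s) : LowerS K' s := by
  obtain ⟨ε, hε, n₀, h⟩ := h
  refine ⟨ε, hε, n₀, fun n hn => ?_⟩
  obtain ⟨N, c, h1, h2, h3⟩ := h n hn
  exact ⟨N, c, h1, hK c h2, h3⟩

theorem lower_of_lowerS {K : (Finset ℤ → Bool) → Prop} {s : ℕ} (h : LowerS K s) : Lower s := by
  classical
  obtain ⟨ε, hε, n₀, h⟩ := h
  refine ⟨ε, hε, n₀, fun n hn => ?_⟩
  obtain ⟨N, c, h1, -, h3⟩ := h n hn
  refine ⟨N, h1, ?_⟩
  intro hram
  obtain ⟨H, hH, hHc, b, hb⟩ := hram (fun S => c (S.image (fun i : ℕ => (i : ℤ))))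
  have hinj : Function.Injective (fun i : ℕ => (i : ℤ)) := Nat.cast_injective
  refine h3 (H.image (fun i : ℕ => (i : ℤ))) ?_ (by rw [card_image_of_injective _ hinj, hHc])
    ⟨b, ?_⟩
  · intro x hx
    obtain ⟨i, hi, rfl⟩ := mem_image.1 hx
    have := mem_range.1 (hH hi)
    rw [mem_Ico]
    constructor
    · positivity
    · exact_mod_cast this
  · intro e he hec
    obtain ⟨J, hJ, rfl⟩ := subset_image_iff.1 he
    rw [card_image_of_injective _ hinj] at hec
    exact hb J (by exact_mod_cast hJ) hec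

theorem lower_iterate {s : ℕ} (h : Lower 2) : Lower (s + 2) := by
  induction s with
  | zero => exact h
  | succ s ih => exact lower_of_lowerS (lower_up ih)

theorem lower_two {s : ℕ} (h : Lower (s + 2)) : Lower 2 := by
  induction s with
  | zero => exact h
  | succ s ih => exact ih (lower_down h)

end Pool.Agent.Q216.TI
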