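import Mathlib

/-!
# Ternary ultrametric trees with directions, and a stepping-up lemma

`Ult α`: a level and a direction for every pair of points, as in the leaves of a ternary tree whose
nodes have cyclically ordered children.
-/

set_option autoImplicit false
set_option linter.unusedSectionVars false

namespace Pool.Agent.Q216.TI

open Finset

/-- levels and directions of the pairs of points of a ternary tree -/
structure Ult (α : Type) where
  lev : α → α → ℕ
  dir : α → α → Bool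
  lev_comm : ∀ x y, lev x y = lev y x
  anti : ∀ x y, x ≠ y → dir y x = !dir x y
  iso : ∀ x y z, x ≠ y → x ≠ z → y ≠ z → lev x y < lev y z → lev x z = lev x y ∧ dir x z = dir x y
  four : ∀ a b c d, a ≠ b → a ≠ c → a ≠ d → b ≠ c → b ≠ d → c ≠ d → lev a b = lev a c →
    lev a b = lev a d → lev a b = lev b c → lev a b = lev b d → lev a b = lev c d → False

variable {α : Type} [DecidableEq α] (U : Ult α)

namespace Ult

/-- the set `S` is a comb with direction `d` -/
def Mono (d : Bool) (S : Finset α) : Prop :=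
  ∀ x ∈ S, ∀ y ∈ S, ∀ z ∈ S, x ≠ y → y ≠ z → U.dir x y = d → U.dir y z = d →
    U.lev x y < U.lev y z

/-- the levels of the pairs of points of `S` -/
def levels (S : Finset α) : Finset ℕ := S.offDiag.image (fun p => U.lev p.1 p.2)

/-- some point of `S` is separated from the others at a level which is lower than all the other
levels -/
def Split (S : Finset α) : Prop :=
  ∃ y ∈ S, ∀ x ∈ S, ∀ z ∈ S, x ≠ y → z ≠ y → x ≠ z → U.lev y x < U.lev x z

theorem mono_subset {d : Bool} {S T : Finset α} (h : U.Mono d S) (hT : T ⊆ S) : U.Mono d T :=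
  fun x hx y hy z hz => h x (hT hx) y (hT hy) z (hT hz)

theorem dir_or {x y : α} (h : x ≠ y) (d : Bool) : U.dir x y = d ∨ U.dir y x = d := by
  have h1 := U.anti x y h
  cases hd : d <;> cases hx : U.dir x y <;> simp_all

theorem not_both {x y : α} (h : x ≠ y) {d : Bool} (h1 : U.dir x y = d) (h2 : U.dir y x = d) :
    False := by
  have h3 := U.anti x y h
  rw [h1, h2] at h3
  cases d <;> simp at h3

theorem ultra {x y z : α} {L : ℕ} (hxy : x ≠ y) (hxz : x ≠ z) (hyz : y ≠ z) (h1 : L < U.lev x y)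
    (h2 : L < U.lev y z) : L < U.lev x z := by
  by_contra h
  push Not at h
  have h3 : U.lev z x < U.lev x y := by rw [U.lev_comm z x]; omega
  have h4 := (U.iso z x y hxz.symm hyz.symm hxy h3).1
  rw [U.lev_comm z y, U.lev_comm z x] at h4
  omega

theorem ultra_le {x y z : α} {L : ℕ} (hxy : x ≠ y) (hxz : x ≠ z) (hyz : y ≠ z)
    (h1 : L ≤ U.lev x y) (h2 : L ≤ U.lev y z) : L ≤ U.lev x z := by
  rcases Nat.eq_zero_or_pos L with h | h
  · omega
  · have := U.ultra (L := L - 1) hxy hxz hyz (by omega) (by omega)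
    omega

/-- the smallest point -/
theorem exists_min {d : Bool} (S : Finset α) : S.Nonempty → U.Mono d S →
    ∃ y ∈ S, ∀ x ∈ S, x ≠ y → U.dir y x = d := by
  classical
  induction S using Finset.induction_on with
  | empty => intro h; exact absurd h (by simp)
  | insert a S ha ih =>
    intro _ hM
    rcases S.eq_empty_or_nonempty with rfl | hS
    · refine ⟨a, by simp, ?_⟩
      intro x hx hxa
      simp only [insert_empty_eq, mem_singleton] at hx
      exact absurd hx hxa
    obtain ⟨y, hy, hyx⟩ := ih hS (U.mono_subset hM (subset_insert _ _))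
    have hay : a ≠ y := fun e => ha (e ▸ hy)
    rcases U.dir_or hay d with h | h
    · refine ⟨a, mem_insert_self _ _, ?_⟩
      intro x hx hxa
      rcases mem_insert.1 hx with rfl | hx
      · exact absurd rfl hxa
      by_cases hxy : x = y
      · rw [hxy]; exact h
      have h1 := hyx x hx hxy
      have h2 := hM a (mem_insert_self _ _) y (mem_insert_of_mem hy) x (mem_insert_of_mem hx)
        hay (Ne.symm hxy) h h1
      exact ((U.iso a y x hay (Ne.symm hxa) (Ne.symm hxy) h2).2).trans h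
    · refine ⟨y, mem_insert_of_mem hy, ?_⟩
      intro x hx hxy
      rcases mem_insert.1 hx with rfl | hx
      · exact h
      · exact hyx x hx hxy

/-- the first point of a comb -/
theorem exists_top {d : Bool} {S : Finset α} (hS : 2 ≤ S.card) (hM : U.Mono d S) :
    ∃ y ∈ S, ∃ L, (∀ x ∈ S, x ≠ y → U.lev y x = L ∧ U.dir y x = d) ∧
      ∀ x ∈ S, ∀ z ∈ S, x ≠ y → z ≠ y → x ≠ z → L < U.lev x z := by
  obtain ⟨y, hy, hyx⟩ := U.exists_min S (card_pos.1 (by omega)) hM
  have h1 : ∃ x1 ∈ S, x1 ≠ y := by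
    obtain ⟨x1, hx1, hne⟩ := Finset.exists_mem_ne (by omega : 1 < S.card) y
    exact ⟨x1, hx1, hne⟩
  obtain ⟨x1, hx1, hx1y⟩ := h1
  have key : ∀ x ∈ S, ∀ z ∈ S, x ≠ y → z ≠ y → x ≠ z →
      U.lev y x < U.lev x z ∧ U.lev y z = U.lev y x := by
    intro x hx z hz hxy hzy hxz
    rcases U.dir_or hxz d with h | h
    · have h2 := hM y hy x hx z hz (Ne.symm hxy) hxz (hyx x hx hxy) h
      exact ⟨h2, (U.iso y x z (Ne.symm hxy) (Ne.symm hzy) hxz h2).1⟩
    · have h2 := hM y hy z hz x hx (Ne.symm hzy) (Ne.symm hxz) (hyx z hz hzy) h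
      have h3 := (U.iso y z x (Ne.symm hzy) (Ne.symm hxy) (Ne.symm hxz) h2).1
      rw [h3]
      refine ⟨?_, rfl⟩
      rw [U.lev_comm x z]
      exact h2
  refine ⟨y, hy, U.lev y x1, ?_, ?_⟩
  · intro x hx hxy
    refine ⟨?_, hyx x hx hxy⟩
    by_cases h : x1 = x
    · rw [h]
    · exact (key x1 hx1 x hx hx1y hxy h).2
  · intro x hx z hz hxy hzy hxz
    have h2 := key x hx z hz hxy hzy hxz
    by_cases h : x1 = x
    · rw [h]; exact h2.1
    · rw [← (key x1 hx1 x hx hx1y hxy h).2]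
      exact h2.1

theorem split_of_mono {d : Bool} {S : Finset α} (hS : 2 ≤ S.card) (hM : U.Mono d S) :
    U.Split S := by
  obtain ⟨y, hy, L, h1, h2⟩ := U.exists_top hS hM
  refine ⟨y, hy, ?_⟩
  intro x hx z hz hxy hzy hxz
  rw [(h1 x hx hxy).1]
  exact h2 x hx z hz hxy hzy hxz

theorem mem_levels {S : Finset α} {l : ℕ} :
    l ∈ U.levels S ↔ ∃ x ∈ S, ∃ y ∈ S, x ≠ y ∧ U.lev x y = l := by
  unfold levels
  simp only [mem_image, mem_offDiag, Prod.exists]
  constructor
  · rintro ⟨x, y, ⟨hx, hy, hne⟩, h⟩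
    exact ⟨x, hx, y, hy, hne, h⟩
  · rintro ⟨x, hx, y, hy, hne, h⟩
    exact ⟨x, y, ⟨hx, hy, hne⟩, h⟩

theorem levels_mono {S T : Finset α} (h : T ⊆ S) : U.levels T ⊆ U.levels S := by
  intro l hl
  obtain ⟨x, hx, y, hy, hne, h1⟩ := U.mem_levels.1 hl
  exact U.mem_levels.2 ⟨x, h hx, y, h hy, hne, h1⟩

theorem levels_insert {y : α} {S : Finset α} {L : ℕ} (hy : y ∉ S) (hS : S.Nonempty)
    (h : ∀ x ∈ S, U.lev y x = L) : U.levels (insert y S) = insert L (U.levels S) := by
  ext l
  rw [mem_insert, U.mem_levels, U.mem_levels]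
  constructor
  · rintro ⟨a, ha, b, hb, hab, hl⟩
    rcases mem_insert.1 ha with ha1 | ha1
    · rcases mem_insert.1 hb with hb1 | hb1
      · exact absurd (ha1.trans hb1.symm) hab
      · left; rw [← hl, ha1]; exact h b hb1
    · rcases mem_insert.1 hb with hb1 | hb1
      · left; rw [← hl, hb1, U.lev_comm]; exact h a ha1
      · right; exact ⟨a, ha1, b, hb1, hab, hl⟩
  · rintro (rfl | ⟨a, ha, b, hb, hab, hl⟩)
    · obtain ⟨x, hx⟩ := hS
      exact ⟨y, mem_insert_self _ _, x, mem_insert_of_mem hx, fun e => hy (e ▸ hx), h x hx⟩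
    · exact ⟨a, mem_insert_of_mem ha, b, mem_insert_of_mem hb, hab, hl⟩

/-- The levels of a comb. -/
theorem levels_comb {d : Bool} : ∀ (m : ℕ) (S : Finset α), S.card = m + 1 → U.Mono d S →
    (U.levels S).card = m ∧
      ∀ T ⊆ U.levels S, ∃ S' ⊆ S, S'.card = T.card + 1 ∧ U.levels S' = T := by
  intro m
  induction m with
  | zero =>
    intro S hS hM
    obtain ⟨a, rfl⟩ := card_eq_one.1 (by simpa using hS)
    have h0 : U.levels ({a} : Finset α) = ∅ := by
      ext l
      rw [U.mem_levels]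
      simp
    rw [h0]
    refine ⟨rfl, ?_⟩
    intro T hT
    have hT0 : T = ∅ := subset_empty.1 hT
    subst hT0
    exact ⟨{a}, Subset.rfl, by simp, h0⟩
  | succ m ih =>
    intro S hS hM
    obtain ⟨y, hy, L, h1, h2⟩ := U.exists_top (by omega) hM
    have hS0 : (S.erase y).card = m + 1 := by rw [card_erase_of_mem hy]; omega
    obtain ⟨h3, h4⟩ := ih (S.erase y) hS0 (U.mono_subset hM (erase_subset _ _))
    have hne : (S.erase y).Nonempty := card_pos.1 (by omega)
    have h5 : U.levels S = insert L (U.levels (S.erase y)) := by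
      conv_lhs => rw [← insert_erase hy]
      exact U.levels_insert (notMem_erase _ _) hne
        (fun x hx => (h1 x (mem_of_mem_erase hx) (ne_of_mem_erase hx)).1)
    have h6 : L ∉ U.levels (S.erase y) := by
      intro hL
      obtain ⟨a, ha, b, hb, hab, hl⟩ := U.mem_levels.1 hL
      have := h2 a (mem_of_mem_erase ha) b (mem_of_mem_erase hb) (ne_of_mem_erase ha)
        (ne_of_mem_erase hb) hab
      omega
    refine ⟨by rw [h5, card_insert_of_notMem h6, h3], ?_⟩
    intro T hT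
    by_cases hLT : L ∈ T
    · have hT' : T.erase L ⊆ U.levels (S.erase y) := by
        intro l hl
        have := hT (mem_of_mem_erase hl)
        rw [h5, mem_insert] at this
        exact this.resolve_left (ne_of_mem_erase hl)
      obtain ⟨S', hS', hc, hlv⟩ := h4 _ hT'
      have hyS' : y ∉ S' := fun h => notMem_erase y S (hS' h)
      have hne' : S'.Nonempty := card_pos.1 (by omega)
      refine ⟨insert y S', ?_, ?_, ?_⟩
      · intro x hx
        rcases mem_insert.1 hx with rfl | hx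
        · exact hy
        · exact mem_of_mem_erase (hS' hx)
      · rw [card_insert_of_notMem hyS', hc, card_erase_of_mem hLT]
        have : 0 < T.card := card_pos.2 ⟨L, hLT⟩
        omega
      · rw [U.levels_insert hyS' hne'
          (fun x hx => (h1 x (mem_of_mem_erase (hS' hx)) (ne_of_mem_erase (hS' hx))).1), hlv,
          insert_erase hLT]
    · have hT' : T ⊆ U.levels (S.erase y) := by
        intro l hl
        have := hT hl
        rw [h5, mem_insert] at this
        exact this.resolve_left (fun e => hLT (e ▸ hl))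
      obtain ⟨S', hS', hc, hlv⟩ := h4 _ hT'
      exact ⟨S', hS'.trans (erase_subset _ _), hc, hlv⟩

/-- The stepped-up colouring. -/
noncomputable def col (φ : Finset ℕ → Bool) (S : Finset α) : Bool :=
  open Classical in if ∃ d, U.Mono d S then φ (U.levels S) else decide (U.Split S)

/-- Lowest level of a finite set. -/
theorem exists_low {X : Finset α} (hX : 2 ≤ X.card) :
    ∃ a ∈ X, ∃ b ∈ X, a ≠ b ∧ ∀ x ∈ X, ∀ y ∈ X, x ≠ y → U.lev a b ≤ U.lev x y := by
  have h1 : X.offDiag.Nonempty := by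
    obtain ⟨a, ha, b, hb, hab⟩ := one_lt_card.1 (by omega : 1 < X.card)
    exact ⟨(a, b), mem_offDiag.2 ⟨ha, hb, hab⟩⟩
  obtain ⟨p, hp, hmin⟩ := exists_min_image X.offDiag (fun p => U.lev p.1 p.2) h1
  obtain ⟨ha, hb, hab⟩ := mem_offDiag.1 hp
  exact ⟨p.1, ha, p.2, hb, hab, fun x hx y hy hxy => hmin (x, y) (mem_offDiag.2 ⟨hx, hy, hxy⟩)⟩

theorem blue (φ : Finset ℕ → Bool) {s : ℕ} (hs : 4 ≤ s) {X : Finset α}
    (hX : 3 * (s - 1) ≤ X.card) (hcol : ∀ S ⊆ X, S.card = s → U.col φ S = false) :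
    ∃ d, ∃ C ⊆ X, U.Mono d C ∧ X.card + 3 ≤ 3 * C.card := by
  classical
  obtain ⟨a, ha, b, hb, hab, hmin⟩ := U.exists_low (X := X) (by omega)
  set L := U.lev a b with hL
  -- classes
  let cls : α → Finset α := fun w => X.filter (fun z => z = w ∨ L < U.lev w z)
  have hex : ∃ w ∈ X, ∃ y ∈ X, y ≠ w ∧ U.lev y w = L ∧ X.card ≤ 3 * (cls w).card := by
    by_cases hc : ∃ c ∈ X, c ≠ a ∧ c ≠ b ∧ U.lev a c = L ∧ U.lev b c = L
    · obtain ⟨c, hcX, hca, hcb, hac, hbc⟩ := hc
      have hcov : X ⊆ cls a ∪ cls b ∪ cls c := by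
        intro x hx
        by_contra hcon
        simp only [cls, mem_union, mem_filter, hx, true_and, not_or, not_lt] at hcon
        obtain ⟨⟨⟨h1, h2⟩, ⟨h3, h4⟩⟩, ⟨h5, h6⟩⟩ := hcon
        have e1 := hmin a ha x hx (Ne.symm h1)
        have e2 := hmin b hb x hx (Ne.symm h3)
        have e3 := hmin c hcX x hx (Ne.symm h5)
        exact U.four a b c x hab (Ne.symm hca) (Ne.symm h1) (Ne.symm hcb) (Ne.symm h3)
          (Ne.symm h5) (by omega) (by omega) (by omega) (by omega) (by omega)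
      have hcard : X.card ≤ (cls a).card + (cls b).card + (cls c).card :=
        (card_le_card hcov).trans ((card_union_le _ _).trans
          (Nat.add_le_add_right (card_union_le _ _) _))
      have h3 : X.card ≤ 3 * (cls a).card ∨ X.card ≤ 3 * (cls b).card ∨
          X.card ≤ 3 * (cls c).card := by omega
      rcases h3 with h | h | h
      · exact ⟨a, ha, b, hb, hab.symm, by rw [U.lev_comm], h⟩
      · exact ⟨b, hb, a, ha, hab, rfl, h⟩
      · exact ⟨c, hcX, a, ha, Ne.symm hca, hac, h⟩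
    · push Not at hc
      have hcov : X ⊆ cls a ∪ cls b := by
        intro x hx
        by_contra hcon
        simp only [cls, mem_union, mem_filter, hx, true_and, not_or, not_lt] at hcon
        obtain ⟨⟨h1, h2⟩, ⟨h3, h4⟩⟩ := hcon
        have e1 := hmin a ha x hx (Ne.symm h1)
        have e2 := hmin b hb x hx (Ne.symm h3)
        exact hc x hx h1 h3 (by omega) (by omega)
      have hcard : X.card ≤ (cls a).card + (cls b).card :=
        (card_le_card hcov).trans (card_union_le _ _)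
      have h3 : X.card ≤ 3 * (cls a).card ∨ X.card ≤ 3 * (cls b).card := by omega
      rcases h3 with h | h
      · exact ⟨a, ha, b, hb, hab.symm, by rw [U.lev_comm], h⟩
      · exact ⟨b, hb, a, ha, hab, rfl, h⟩
  obtain ⟨w, hw, y, hy, hyw, hyL, hcard⟩ := hex
  have hZ1 : ∀ x ∈ cls w, x ∈ X ∧ (x = w ∨ L < U.lev w x) := fun x hx => mem_filter.1 hx
  have hyZ : y ∉ cls w := by
    intro h
    rcases (hZ1 y h).2 with h1 | h1
    · exact hyw h1
    · rw [U.lev_comm w y] at h1; omega
  have hZ2 : ∀ x ∈ cls w, ∀ z ∈ cls w, x ≠ z → L < U.lev x z := by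
    intro x hx z hz hxz
    rcases (hZ1 x hx).2 with rfl | h1
    · rcases (hZ1 z hz).2 with h2 | h2
      · exact absurd h2.symm hxz
      · exact h2
    · rcases (hZ1 z hz).2 with rfl | h2
      · rw [U.lev_comm]; exact h1
      · by_cases hxw : x = w
        · rw [hxw]; exact h2
        by_cases hzw : z = w
        · rw [hzw, U.lev_comm]; exact h1
        · exact U.ultra hxw hxz (Ne.symm hzw) (by rw [U.lev_comm]; exact h1) h2
  have hZ3 : ∀ x ∈ cls w, y ≠ x ∧ U.lev y x = L ∧ U.dir y x = U.dir y w := by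
    intro x hx
    have hyx : y ≠ x := fun e => hyZ (e ▸ hx)
    refine ⟨hyx, ?_⟩
    by_cases hxw : x = w
    · rw [hxw]; exact ⟨hyL, rfl⟩
    · have h1 : L < U.lev w x := (hZ1 x hx).2.resolve_left hxw
      have h2 := U.iso y w x hyw hyx (Ne.symm hxw) (by omega)
      exact ⟨by rw [h2.1]; exact hyL, h2.2⟩
  set Z := cls w with hZ
  set C := insert y Z with hC
  have hCX : C ⊆ X := by
    intro x hx
    rcases mem_insert.1 hx with rfl | hx
    · exact hy
    · exact (hZ1 x hx).1
  have hCc : C.card = Z.card + 1 := card_insert_of_notMem hyZ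
  refine ⟨U.dir y w, C, hCX, ?_, by omega⟩
  intro p hp q hq t ht hpq hqt h1 h2
  -- a set of size s
  have h4 : ({p, q, t, y} : Finset α) ⊆ C := by
    intro x hx
    simp only [mem_insert, mem_singleton] at hx
    rcases hx with rfl | rfl | rfl | rfl
    · exact hp
    · exact hq
    · exact ht
    · exact mem_insert_self _ _
  have h5 : ({p, q, t, y} : Finset α).card ≤ s := (card_le_four).trans hs
  obtain ⟨S, hS1, hS2, hS3⟩ := exists_subsuperset_card_eq h4 h5 (by omega : s ≤ C.card)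
  have hyS : y ∈ S := hS1 (by simp)
  have hSZ : ∀ x ∈ S, x ≠ y → x ∈ Z := fun x hx hxy =>
    (mem_insert.1 (hS2 hx)).resolve_left hxy
  have hsplit : U.Split S := by
    refine ⟨y, hyS, ?_⟩
    intro x hx z hz hxy hzy hxz
    rw [(hZ3 x (hSZ x hx hxy)).2.1]
    exact hZ2 x (hSZ x hx hxy) z (hSZ z hz hzy) hxz
  have hcS := hcol S (hS2.trans hCX) hS3
  have hM : ∃ d, U.Mono d S := by
    by_contra hcon
    unfold col at hcS
    rw [if_neg hcon] at hcS
    simp [hsplit] at hcS
  obtain ⟨d, hd⟩ := hM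
  have hdd : d = U.dir y w := by
    by_contra hne
    have hd' : U.dir y w = !d := by
      cases hd1 : d <;> cases hd2 : U.dir y w <;> simp_all
    have h7 : 2 < S.card := by omega
    obtain ⟨x1, hx1, x2, hx2, hy1, hy2, h12⟩ : ∃ x1 ∈ S, ∃ x2 ∈ S, x1 ≠ y ∧ x2 ≠ y ∧ x1 ≠ x2 := by
      have h8 : 1 < (S.erase y).card := by rw [card_erase_of_mem hyS]; omega
      obtain ⟨x1, hx1, x2, hx2, h12⟩ := one_lt_card.1 h8
      exact ⟨x1, mem_of_mem_erase hx1, x2, mem_of_mem_erase hx2, ne_of_mem_erase hx1,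
        ne_of_mem_erase hx2, h12⟩
    have hdy : ∀ x ∈ S, x ≠ y → U.dir x y = d := by
      intro x hx hxy
      rw [U.anti y x (Ne.symm hxy), (hZ3 x (hSZ x hx hxy)).2.2, hd']
      simp
    have hl : ∀ x ∈ S, x ≠ y → U.lev x y = L := by
      intro x hx hxy
      rw [U.lev_comm]
      exact (hZ3 x (hSZ x hx hxy)).2.1
    have hgt := hZ2 x1 (hSZ x1 hx1 hy1) x2 (hSZ x2 hx2 hy2) h12
    rcases U.dir_or h12 d with h | h
    · have := hd x1 hx1 x2 hx2 y hyS h12 hy2 h (hdy x2 hx2 hy2)
      rw [hl x2 hx2 hy2] at this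
      omega
    · have := hd x2 hx2 x1 hx1 y hyS h12.symm hy1 h (hdy x1 hx1 hy1)
      rw [hl x1 hx1 hy1, U.lev_comm] at this
      omega
  rw [hdd] at hd
  exact hd p (hS1 (by simp)) q (hS1 (by simp)) t (hS1 (by simp)) hpq hqt h1 h2

/-- if all `s`-subsets are red then all large subsets are split -/
theorem split_of_red (φ : Finset ℕ → Bool) {s : ℕ} (hs : 4 ≤ s) {X : Finset α}
    (hcol : ∀ S ⊆ X, S.card = s → U.col φ S = true) {Y : Finset α} (hYX : Y ⊆ X)
    (hY : s ≤ Y.card) : U.Split Y := by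
  classical
  by_contra hns
  obtain ⟨a, ha, b, hb, hab, hmin⟩ := U.exists_low (X := Y) (by omega)
  set L := U.lev a b with hL
  have hav : ∀ y ∈ Y, ∃ p ∈ Y, ∃ q ∈ Y, p ≠ q ∧ p ≠ y ∧ q ≠ y ∧ U.lev p q = L := by
    intro y hy
    by_contra hcon
    push Not at hcon
    have hgt : ∀ p ∈ Y, ∀ q ∈ Y, p ≠ q → p ≠ y → q ≠ y → L < U.lev p q := by
      intro p hp q hq h1 h2 h3
      exact lt_of_le_of_ne (hmin p hp q hq h1) (Ne.symm (hcon p hp q hq h1 h2 h3))
    -- y is one of a, b
    have hx0 : ∃ x0 ∈ Y, x0 ≠ y ∧ U.lev y x0 = L := by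
      by_cases hay : a = y
      · exact ⟨b, hb, fun e => hab (hay.trans e.symm), by rw [← hay]⟩
      · by_cases hby : b = y
        · exact ⟨a, ha, hay, by rw [← hby, U.lev_comm]⟩
        · exact absurd rfl (hcon a ha b hb hab hay hby)
    obtain ⟨x0, hx0, hx0y, hx0L⟩ := hx0
    have hall : ∀ x ∈ Y, x ≠ y → U.lev y x = L := by
      intro x hx hxy
      by_cases h : x = x0
      · rw [h]; exact hx0L
      · have h1 := hgt x0 hx0 x hx (Ne.symm h) hx0y hxy
        rw [(U.iso y x0 x (Ne.symm hx0y) (Ne.symm hxy) (Ne.symm h) (by omega)).1]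
        exact hx0L
    exact hns ⟨y, hy, fun x hx z hz hxy hzy hxz => by
      rw [hall x hx hxy]
      exact hgt x hx z hz hxz hxy hzy⟩
  -- a set of at most four points which is not split together with any superset
  have hW : ∃ W ⊆ Y, W.card ≤ 4 ∧ ∀ y, ∃ p ∈ W, ∃ q ∈ W, p ≠ q ∧ p ≠ y ∧ q ≠ y ∧ U.lev p q = L := by
    have hdisj : ∀ p ∈ Y, ∀ q ∈ Y, ∀ p' ∈ Y, ∀ q' ∈ Y, p ≠ q → p' ≠ q' → p ≠ p' → p ≠ q' → q ≠ p' →
        q ≠ q' → U.lev p q = L → U.lev p' q' = L →
        ∃ W ⊆ Y, W.card ≤ 4 ∧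
          ∀ y, ∃ p ∈ W, ∃ q ∈ W, p ≠ q ∧ p ≠ y ∧ q ≠ y ∧ U.lev p q = L := by
      intro p hp q hq p' hp' q' hq' h1 h2 h3 h4 h5 h6 h7 h8
      refine ⟨{p, q, p', q'}, ?_, card_le_four, ?_⟩
      · intro x hx
        simp only [mem_insert, mem_singleton] at hx
        rcases hx with rfl | rfl | rfl | rfl <;> assumption
      · intro y
        by_cases hy : p = y ∨ q = y
        · refine ⟨p', by simp, q', by simp, h2, ?_, ?_, h8⟩
          · rintro rfl; rcases hy with h | h
            · exact h3 h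
            · exact h5 h
          · rintro rfl; rcases hy with h | h
            · exact h4 h
            · exact h6 h
        · push Not at hy
          exact ⟨p, by simp, q, by simp, h1, hy.1, hy.2, h7⟩
    obtain ⟨p, hp, q, hq, hpq, hpa, hqa, hpqL⟩ := hav a ha
    by_cases hb1 : p ≠ b ∧ q ≠ b
    · exact hdisj a ha b hb p hp q hq hab hpq (Ne.symm hpa) (Ne.symm hqa) (Ne.symm hb1.1)
        (Ne.symm hb1.2) rfl hpqL
    -- a third point c with lev b c = L
    have hc : ∃ c ∈ Y, c ≠ a ∧ c ≠ b ∧ U.lev b c = L := by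
      by_cases hpb : p = b
      · exact ⟨q, hq, hqa, fun e => hpq (hpb.trans e.symm), by rw [← hpb]; exact hpqL⟩
      · have hqb : q = b := by
          by_contra h
          exact hb1 ⟨hpb, h⟩
        exact ⟨p, hp, hpa, hpb, by rw [← hqb, U.lev_comm]; exact hpqL⟩
    obtain ⟨c, hc, hca, hcb, hbc⟩ := hc
    obtain ⟨p', hp', q', hq', hpq', hpb', hqb', hpqL'⟩ := hav b hb
    by_cases h1 : p' ≠ a ∧ q' ≠ a
    · exact hdisj a ha b hb p' hp' q' hq' hab hpq' (Ne.symm h1.1) (Ne.symm h1.2) (Ne.symm hpb')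
        (Ne.symm hqb') rfl hpqL'
    by_cases h2 : p' ≠ c ∧ q' ≠ c
    · exact hdisj b hb c hc p' hp' q' hq' (Ne.symm hcb) hpq' (Ne.symm hpb') (Ne.symm hqb')
        (Ne.symm h2.1) (Ne.symm h2.2) hbc hpqL'
    -- {p', q'} = {a, c}
    have hac : U.lev a c = L := by
      by_cases e1 : p' = a
      · have e2 : q' = c := by
          by_contra e2
          apply h2
          exact ⟨fun e => hca (e.symm.trans e1), e2⟩
        rw [← e1, ← e2]; exact hpqL'
      · have e2 : q' = a := by
          by_contra e2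
          exact h1 ⟨e1, e2⟩
        have e3 : p' = c := by
          by_contra e3
          apply h2
          exact ⟨e3, fun e => hca (e.symm.trans e2)⟩
        rw [← e2, ← e3, U.lev_comm]; exact hpqL'
    refine ⟨{a, b, c}, ?_, card_le_three.trans (by norm_num), ?_⟩
    · intro x hx
      simp only [mem_insert, mem_singleton] at hx
      rcases hx with rfl | rfl | rfl <;> assumption
    · intro y
      by_cases hya : y = a
      · exact ⟨b, by simp, c, by simp, Ne.symm hcb, fun e => hab (hya.symm.trans e.symm),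
          fun e => hca (e.trans hya), hbc⟩
      · by_cases hyb : y = b
        · exact ⟨a, by simp, c, by simp, Ne.symm hca, Ne.symm hya,
            fun e => hcb (e.trans hyb), hac⟩
        · exact ⟨a, by simp, b, by simp, hab, Ne.symm hya, Ne.symm hyb, rfl⟩
  obtain ⟨W, hWY, hWc, hW⟩ := hW
  obtain ⟨S, hS1, hS2, hS3⟩ := exists_subsuperset_card_eq hWY (hWc.trans hs) hY
  have hnsS : ¬ U.Split S := by
    rintro ⟨y, hy, h⟩
    obtain ⟨p, hp, q, hq, hpq, hpy, hqy, hL'⟩ := hW y
    have h1 := h p (hS1 hp) q (hS1 hq) hpy hqy hpq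
    have h2 := hmin y (hS2 hy) p (hS2 (hS1 hp)) (Ne.symm hpy)
    omega
  have hcS := hcol S (hS2.trans hYX) hS3
  unfold col at hcS
  rw [if_neg (by
    rintro ⟨d, hd⟩
    exact hnsS (U.split_of_mono (by omega) hd))] at hcS
  simp [hnsS] at hcS

theorem red_aux (φ : Finset ℕ → Bool) {s : ℕ} (hs : 4 ≤ s) {X : Finset α}
    (hcol : ∀ S ⊆ X, S.card = s → U.col φ S = true) :
    ∀ (t : ℕ) (Y : Finset α), Y ⊆ X → Y.card = t + (s - 1) →
      ∃ C0 ⊆ Y, ∃ C1 ⊆ Y, C0.Nonempty ∧ C1.Nonempty ∧ U.Mono false C0 ∧ U.Mono true C1 ∧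
        t + 2 ≤ C0.card + C1.card := by
  classical
  intro t
  induction t with
  | zero =>
    intro Y hYX hY
    have hne : Y.Nonempty := card_pos.1 (by omega)
    obtain ⟨x, hx⟩ := hne
    have hM : ∀ d, U.Mono d {x} := by
      intro d a ha b hb c hc hab
      rw [mem_singleton] at ha hb
      exact absurd (ha.trans hb.symm) hab
    exact ⟨{x}, by simpa using hx, {x}, by simpa using hx, by simp, by simp, hM _, hM _, by simp⟩
  | succ t ih =>
    intro Y hYX hY
    obtain ⟨y, hy, hsp⟩ := U.split_of_red φ hs hcol hYX (by omega)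
    obtain ⟨C0, hC0, C1, hC1, hn0, hn1, hM0, hM1, hcd⟩ := ih (Y.erase y)
      ((erase_subset _ _).trans hYX) (by rw [card_erase_of_mem hy]; omega)
    have hconst : ∀ x ∈ Y, ∀ z ∈ Y, x ≠ y → z ≠ y → U.dir y x = U.dir y z := by
      intro x hx z hz hxy hzy
      by_cases hxz : x = z
      · rw [hxz]
      · have h1 := hsp x hx z hz hxy hzy hxz
        exact (U.iso y x z (Ne.symm hxy) (Ne.symm hzy) hxz h1).2.symm
    have hext : ∀ (d : Bool) (C : Finset α), C ⊆ Y.erase y → U.Mono d C →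
        (∀ x ∈ C, U.dir y x = d) → U.Mono d (insert y C) := by
      intro d C hC hM hd p hp q hq t ht hpq hqt h1 h2
      have hCY : ∀ x ∈ C, x ∈ Y ∧ x ≠ y := fun x hx =>
        ⟨mem_of_mem_erase (hC hx), ne_of_mem_erase (hC hx)⟩
      rcases mem_insert.1 hq with hq1 | hq1
      · rcases mem_insert.1 hp with hp1 | hp1
        · exact absurd (hp1.trans hq1.symm) hpq
        · exact (U.not_both hpq h1 (by rw [hq1]; exact hd p hp1)).elim
      rcases mem_insert.1 ht with ht1 | ht1
      · exact (U.not_both hqt h2 (by rw [ht1]; exact hd q hq1)).elim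
      rcases mem_insert.1 hp with hp1 | hp1
      · rw [hp1]
        exact hsp q (hCY q hq1).1 t (hCY t ht1).1 (hCY q hq1).2 (hCY t ht1).2 hqt
      · exact hM p hp1 q hq1 t ht1 hpq hqt h1 h2
    obtain ⟨x0, hx0⟩ := hn0
    have hx0Y := hC0 hx0
    have hd : ∀ x ∈ Y.erase y, U.dir y x = U.dir y x0 := fun x hx =>
      hconst x (mem_of_mem_erase hx) x0 (mem_of_mem_erase hx0Y) (ne_of_mem_erase hx)
        (ne_of_mem_erase hx0Y)
    have hins : ∀ C : Finset α, C ⊆ Y.erase y → insert y C ⊆ Y := by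
      intro C hC x hx
      rcases mem_insert.1 hx with rfl | hx
      · exact hy
      · exact mem_of_mem_erase (hC hx)
    have hcard : ∀ C : Finset α, C ⊆ Y.erase y → (insert y C).card = C.card + 1 := by
      intro C hC
      exact card_insert_of_notMem (fun h => notMem_erase y Y (hC h))
    cases hdd : U.dir y x0 with
    | false =>
      refine ⟨insert y C0, hins C0 hC0, C1, hC1.trans (erase_subset _ _), ⟨y, mem_insert_self _ _⟩,
        hn1, hext false C0 hC0 hM0 (fun x hx => (hd x (hC0 hx)).trans hdd), hM1, ?_⟩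
      rw [hcard C0 hC0]; omega
    | true =>
      refine ⟨C0, hC0.trans (erase_subset _ _), insert y C1, hins C1 hC1, ⟨x0, hx0⟩,
        ⟨y, mem_insert_self _ _⟩, hM0,
        hext true C1 hC1 hM1 (fun x hx => (hd x (hC1 hx)).trans hdd), ?_⟩
      rw [hcard C1 hC1]; omega

theorem red (φ : Finset ℕ → Bool) {s : ℕ} (hs : 4 ≤ s) {X : Finset α} (hX : s - 1 ≤ X.card)
    (hcol : ∀ S ⊆ X, S.card = s → U.col φ S = true) :
    ∃ d, ∃ C ⊆ X, U.Mono d C ∧ X.card + 2 ≤ 2 * C.card + (s - 1) := by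
  obtain ⟨C0, hC0, C1, hC1, -, -, hM0, hM1, hcd⟩ := U.red_aux φ hs hcol (X.card - (s - 1)) X
    Subset.rfl (by omega)
  rcases le_total C0.card C1.card with h | h
  · exact ⟨true, C1, hC1, hM1, by omega⟩
  · exact ⟨false, C0, hC0, hM0, by omega⟩

/-- **Stepping up.** If `φ` has no homogeneous set of `k` levels then the colouring `col φ` of the
`(r + 1)`-subsets has no homogeneous set with `3 k + 3 r` points. -/
theorem step_up (φ : Finset ℕ → Bool) {r k : ℕ} (hr : 3 ≤ r) (Λ : Finset ℕ)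
    (hφ : ∀ H ⊆ Λ, H.card = k → ¬ ∃ b, ∀ e ⊆ H, e.card = r → φ e = b)
    (X : Finset α) (hX : U.levels X ⊆ Λ) (hc : 3 * k + 3 * r ≤ X.card) :
    ¬ ∃ b, ∀ e ⊆ X, e.card = r + 1 → U.col φ e = b := by
  rintro ⟨b, hb⟩
  have hC : ∃ d, ∃ C ⊆ X, U.Mono d C ∧ k + 1 ≤ C.card := by
    cases b with
    | false =>
      obtain ⟨d, C, h1, h2, h3⟩ := U.blue φ (s := r + 1) (by omega) (by omega) hb
      exact ⟨d, C, h1, h2, by omega⟩
    | true =>
      obtain ⟨d, C, h1, h2, h3⟩ := U.red φ (s := r + 1) (by omega) (by omega) hb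
      exact ⟨d, C, h1, h2, by omega⟩
  obtain ⟨d, C, hCX, hM, hCc⟩ := hC
  obtain ⟨h1, h2⟩ := U.levels_comb (C.card - 1) C (by omega) hM
  obtain ⟨H, hH, hHc⟩ := exists_subset_card_eq (by omega : k ≤ (U.levels C).card)
  refine hφ H (hH.trans ((U.levels_mono hCX).trans hX)) hHc ⟨b, ?_⟩
  intro e he hec
  obtain ⟨S, hS, hSc, hSl⟩ := h2 e (he.trans hH)
  have h3 := hb S (hS.trans hCX) (by omega)
  unfold col at h3
  rw [if_pos ⟨d, U.mono_subset hM hS⟩, hSl] at h3
  exact h3

end Ult

end Pool.Agent.Q216.TI
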